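import Mathlib

/-!
# Expansive homeomorphisms with the shadowing property: basic facts
-/

set_option autoImplicit false
set_option linter.unusedSectionVars false

open Filter Topology Set

namespace Pool.Agent.Y331.EP

variable {X : Type*} [MetricSpace X]

/-- full orbits -/
def Orb (f : X → X) (y : ℤ → X) : Prop := ∀ n : ℤ, y (n + 1) = f (y n)

/-- `f` is expansive with the constant `e` -/
structure Ex (f : X ≃ₜ X) (e : ℝ) : Prop where
  pos : 0 < e
  exp : ∀ x y : ℤ → X, Orb f x → Orb f y → (∀ n, dist (x n) (y n) ≤ e) → x 0 = y 0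

/-- shadowing of bi-infinite pseudo-orbits -/
def Shad (f : X ≃ₜ X) : Prop := ∀ ε > 0, ∃ δ > 0, ∀ x : ℤ → X,
  (∀ n, dist (f (x n)) (x (n + 1)) ≤ δ) → ∃ y, Orb f y ∧ ∀ n, dist (x n) (y n) ≤ ε

theorem zp_succ (f : X ≃ₜ X) (n : ℤ) (p : X) : (f ^ (n + 1)) p = f ((f ^ n) p) := by
  rw [add_comm, zpow_add, zpow_one]; rfl

theorem zp_nat (f : X ≃ₜ X) (k : ℕ) (p : X) : (f ^ (k : ℤ)) p = f^[k] p := by
  rw [zpow_natCast]
  induction k with
  | zero => rfl
  | succ k ih => rw [pow_succ', Function.iterate_succ_apply', ← ih]; rfl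

theorem orb_zp (f : X ≃ₜ X) (p : X) : Orb f fun n => (f ^ n) p := fun n => zp_succ f n p

theorem orb_nat {f : X → X} {y : ℤ → X} (h : Orb f y) (n : ℤ) (k : ℕ) :
    y (n + k) = f^[k] (y n) := by
  induction k with
  | zero => simp
  | succ k ih =>
    rw [Function.iterate_succ_apply', ← ih, ← h]
    congr 1
    push_cast
    ring

theorem orb_shift {f : X → X} {y : ℤ → X} (h : Orb f y) (t : ℤ) : Orb f fun n => y (t + n) :=
  fun n => by
    show y (t + (n + 1)) = f (y (t + n))
    rw [← add_assoc, h]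

theorem orb_eq (f : X ≃ₜ X) {y : ℤ → X} (h : Orb f y) (n : ℤ) : y n = (f ^ n) (y 0) := by
  induction n using Int.induction_on with
  | zero => simp
  | succ k ih => rw [h, ih, zp_succ]
  | pred k ih =>
    have h1 := h (-(k : ℤ) - 1)
    have h2 := zp_succ f (-(k : ℤ) - 1) (y 0)
    rw [sub_add_cancel] at h1 h2
    apply f.injective
    rw [← h1, ← h2, ih]

/-- Closeness for `2 T + 1` consecutive times implies closeness at the middle time. -/
theorem unif_nat [CompactSpace X] {f : X ≃ₜ X} {e : ℝ} (h : Ex f e) {θ : ℝ} (hθ : 0 < θ) :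
    ∃ T : ℕ, ∀ p p' : X, (∀ k ≤ 2 * T, dist (f^[k] p) (f^[k] p') ≤ e) →
      dist (f^[T] p) (f^[T] p') ≤ θ := by
  by_contra hcon
  push Not at hcon
  choose p p' hp hpp using hcon
  set u : ℕ → X × X := fun T => (f^[T] (p T), f^[T] (p' T)) with hu
  obtain ⟨a, -, φ, hφ, hlim⟩ := isCompact_univ.tendsto_subseq (x := u) fun n => mem_univ _
  have h1 : Tendsto (fun k => (u (φ k)).1) atTop (𝓝 a.1) :=
    (continuous_fst.tendsto _).comp hlim
  have h2 : Tendsto (fun k => (u (φ k)).2) atTop (𝓝 a.2) :=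
    (continuous_snd.tendsto _).comp hlim
  have h3 : ∀ n : ℤ, dist ((f ^ n) a.1) ((f ^ n) a.2) ≤ e := by
    intro n
    have k1 : Tendsto (fun k => (f ^ n) (u (φ k)).1) atTop (𝓝 ((f ^ n) a.1)) :=
      ((f ^ n).continuous.tendsto _).comp h1
    have k2 : Tendsto (fun k => (f ^ n) (u (φ k)).2) atTop (𝓝 ((f ^ n) a.2)) :=
      ((f ^ n).continuous.tendsto _).comp h2
    refine le_of_tendsto (k1.dist k2) ?_
    filter_upwards [hφ.tendsto_atTop.eventually_ge_atTop n.natAbs] with k hk
    have e1 : ∀ q : X, (f ^ n) (f^[φ k] q) = f^[(n + φ k).toNat] q := by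
      intro q
      have h4 := orb_zp f q
      have h5 : (0 : ℤ) ≤ n + φ k := by omega
      rw [← zp_nat, ← zp_nat, Int.toNat_of_nonneg h5, zpow_add]
      rfl
    show dist ((f ^ n) (f^[φ k] (p (φ k)))) ((f ^ n) (f^[φ k] (p' (φ k)))) ≤ e
    rw [e1, e1]
    apply hp
    omega
  have h4 : a.1 = a.2 := by
    have := h.exp _ _ (orb_zp f a.1) (orb_zp f a.2) h3
    simpa using this
  have h5 : θ ≤ dist a.1 a.2 := ge_of_tendsto' (h1.dist h2) fun k => (hpp (φ k)).le
  rw [h4, dist_self] at h5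
  linarith

/-- Periodic points whose orbits are close are equal. -/
theorem per_eq {f : X ≃ₜ X} {e : ℝ} (h : Ex f e) {n : ℕ} (hn : 1 ≤ n) {p p' : X}
    (hp : f^[n] p = p) (hp' : f^[n] p' = p') (hd : ∀ k < n, dist (f^[k] p) (f^[k] p') ≤ e) :
    p = p' := by
  have key : ∀ q : X, f^[n] q = q → Orb f fun m : ℤ => f^[(m % n).toNat] q := by
    intro q hq m
    show f^[((m + 1) % n).toNat] q = f (f^[(m % n).toNat] q)
    rw [← Function.iterate_succ_apply' f]
    have h0 : (0 : ℤ) < n := by exact_mod_cast hn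
    have h1 := Int.emod_nonneg m h0.ne'
    have h2 := Int.emod_lt_of_pos m h0
    by_cases hm : m % n + 1 = n
    · have h3 : (m + 1) % n = 0 := by
        rw [← Int.emod_add_emod, hm, Int.emod_self]
      have h4 : (m % n).toNat + 1 = n := by omega
      rw [h3, Nat.succ_eq_add_one, h4, hq]
      rfl
    · have h3 : (m + 1) % n = m % n + 1 := by
        rw [← Int.emod_add_emod]
        exact Int.emod_eq_of_lt (by omega) (by omega)
      rw [h3]
      congr 1
      omega
  have h1 := h.exp _ _ (key p hp) (key p' hp') fun m => by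
    apply hd
    have h0 : (0 : ℤ) < n := by exact_mod_cast hn
    have h1 := Int.emod_nonneg m h0.ne'
    have h2 := Int.emod_lt_of_pos m h0
    omega
  simpa using h1

/-- The periodic pseudo-orbit defined by a closed path. -/
theorem closing {f : X ≃ₜ X} {e : ℝ} (h : Ex f e) (hS : Shad f) {ε : ℝ} (hε : 0 < ε)
    (hεe : 2 * ε ≤ e) : ∃ δ > 0, ∀ n : ℕ, 1 ≤ n → ∀ q : ℕ → X,
    (∀ k < n, dist (f (q k)) (q (k + 1)) ≤ δ) → q n = q 0 →
    ∃ p, f^[n] p = p ∧ ∀ k ≤ n, dist (q k) (f^[k] p) ≤ ε := by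
  obtain ⟨δ, hδ, hsh⟩ := hS ε hε
  refine ⟨δ, hδ, fun n hn q hq hqn => ?_⟩
  have h0 : (0 : ℤ) < n := by exact_mod_cast hn
  obtain ⟨y, hy, hyd⟩ := hsh (fun m => q (m % n).toNat) fun m => by
    show dist (f (q (m % n).toNat)) (q ((m + 1) % n).toNat) ≤ δ
    have h1 := Int.emod_nonneg m h0.ne'
    have h2 := Int.emod_lt_of_pos m h0
    by_cases hm : m % n + 1 = n
    · have h3 : (m + 1) % n = 0 := by
        rw [← Int.emod_add_emod, hm, Int.emod_self]
      have h4 : (m % n).toNat + 1 = n := by omega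
      have h5 := hq (m % n).toNat (by omega)
      rw [h4, hqn] at h5
      rw [h3]
      exact h5
    · have h3 : (m + 1) % n = m % n + 1 := by
        rw [← Int.emod_add_emod]
        exact Int.emod_eq_of_lt (by omega) (by omega)
      have h4 : (m % n + 1).toNat = (m % n).toNat + 1 := by omega
      rw [h3, h4]
      exact hq _ (by omega)
  have hper : y n = y 0 := by
    have h1 := h.exp (fun m => y (n + m)) y (orb_shift hy n) hy fun m => by
      have h2 := hyd (n + m)
      have h3 := hyd m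
      rw [Int.add_emod_left] at h2
      have h4 := dist_triangle_left (y (n + m)) (y m) (q (m % n).toNat)
      show dist (y (n + m)) (y m) ≤ e
      linarith
    simpa using h1
  have hit : ∀ k : ℕ, y k = f^[k] (y 0) := fun k => by
    have := orb_nat hy 0 k
    rwa [zero_add] at this
  refine ⟨y 0, by rw [← hit, hper], fun k hk => ?_⟩
  rw [← hit]
  rcases hk.lt_or_eq with hk | hk
  · have h1 := hyd k
    have h2 : ((k : ℤ) % n).toNat = k := by
      rw [Int.emod_eq_of_lt (by omega) (by omega)]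
      simp
    rwa [h2] at h1
  · have h1 := hyd n
    rw [Int.emod_self] at h1
    rw [hk, hqn]
    exact h1

end Pool.Agent.Y331.EP
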