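import Pool.Agent.Y331.EP.Wk

/-!
# Boundedly many homoclinic identifications
-/

set_option autoImplicit false
set_option linter.unusedSectionVars false

open Filter Topology Set

namespace Pool.Agent.Y331.EP

variable {X Y : Type*} [MetricSpace X] [MetricSpace Y]

/-- the shadowing point of the orbit of `x0` with the middle part replaced by the one of `x` -/
theorem exists_glue [CompactSpace X] {f : X ≃ₜ X} {g : Y ≃ₜ Y} {h : X → Y}
    {ef eg ε δ ν : ℝ} (C : Cw f g h ef eg ε δ ν) {x0 x : X} {T : ℕ} (hT : 1 ≤ T)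
    (hx : h x = h x0) (h0 : dist (f ((f ^ (-(T : ℤ))) x0)) (f ((f ^ (-(T : ℤ))) x)) ≤ δ)
    (h1 : dist ((f ^ (T : ℤ)) x) ((f ^ (T : ℤ)) x0) ≤ δ) :
    ∃ y, h y = h x0 ∧ Hm f x0 y ∧ ∀ n : ℤ, n.natAbs < T → dist ((f ^ n) x) ((f ^ n) y) ≤ ε := by
  have hε := C.ε_pos
  have hεe := C.ε_ef
  set P : ℤ → X := fun n => if -(T : ℤ) < n ∧ n < T then (f ^ n) x else (f ^ n) x0 with hP
  have hPch : ∀ n, dist (f (P n)) (P (n + 1)) ≤ δ := by
    intro n
    simp only [hP]
    by_cases h2 : -(T : ℤ) < n ∧ n < T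
    · rw [if_pos h2]
      by_cases h3 : n + 1 < T
      · rw [if_pos ⟨by omega, h3⟩, zp_succ, dist_self]
        exact C.δ_pos.le
      · rw [if_neg (by omega)]
        have h4 : n + 1 = T := by omega
        rw [← zp_succ, h4]
        exact h1
    · rw [if_neg h2]
      by_cases h3 : -(T : ℤ) < n + 1 ∧ n + 1 < T
      · rw [if_pos h3]
        have h4 : n = -(T : ℤ) := by omega
        subst h4
        rw [zp_succ]
        exact h0
      · rw [if_neg h3, zp_succ, dist_self]
        exact C.δ_pos.le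
  obtain ⟨y, hy, hyd⟩ := C.sh P hPch
  have hk : ∀ (n : ℤ) (z : X), h ((f ^ n) z) = (g ^ n) (h z) := by
    intro n z
    have e1 : ∀ k : ℕ, h ((f ^ (k : ℤ)) z) = (g ^ (k : ℤ)) (h z) := fun k => by
      rw [zp_nat, zp_nat, semi_iter C.hh]
    obtain ⟨k, rfl | rfl⟩ := Int.eq_nat_or_neg n
    · exact e1 k
    · rw [zp_neg, zp_neg]
      apply g.injective.iterate k
      rw [← semi_iter C.hh, (Function.LeftInverse.iterate f.apply_symm_apply k) z,
        (Function.LeftInverse.iterate g.apply_symm_apply k) (h z)]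
  have himg : h ((f ^ (0 : ℤ)) x0) = h (y 0) := by
    refine im_eq' C (P := fun n => (f ^ n) x0) (P' := P) (fun n => ?_) (orb_zp f x0) hy
      (fun n => by rw [dist_self]; exact hε.le) hyd
    simp only [hP]
    split_ifs
    · rw [hk, hk, hx]
    · rfl
  have himg' : h (y 0) = h x0 := by
    rw [← himg]
    simp
  have hout : ∀ n : ℤ, ¬ (-(T : ℤ) < n ∧ n < T) → dist ((f ^ n) x0) (y n) ≤ ε := by
    intro n hn
    have := hyd n
    simp only [hP] at this
    rwa [if_neg hn] at this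
  refine ⟨y 0, himg', ⟨?_, ?_⟩, fun n hn => ?_⟩
  · refine tend_of_close C.exf (L := T) fun n hn => ?_
    have h2 := hout n (by omega)
    rw [orb_eq f hy, zp_nat, zp_nat] at h2
    linarith
  · refine tend_of_close C.exf.symm (L := T) fun n hn => ?_
    have h2 := hout (-(n : ℤ)) (by omega)
    rw [orb_eq f hy, zp_neg, zp_neg] at h2
    linarith
  · have h2 := hyd n
    simp only [hP] at h2
    rw [if_pos (by omega), orb_eq f hy] at h2
    exact h2

/-- **Boundedly many identifications of doubly asymptotic points imply bounded fibres.** -/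
theorem bdd_of_count [CompactSpace X] {f : X ≃ₜ X} {g : Y ≃ₜ Y} {h : X → Y} {ef eg : ℝ}
    (hE : Ex f ef) (hS : Shad f) (hG : Ex g eg) (hc : Continuous h)
    (hh : ∀ x, h (f x) = g (h x)) {B : ℕ} (hB : ∀ x, {y | h y = h x ∧ Hm f x y}.encard ≤ B) :
    ∃ N : ℕ, ∀ y, (h ⁻¹' {y}).encard ≤ N := by
  classical
  obtain ⟨ε, δ, C⟩ := exists_cw hE hS hG hc hh
  have hδ := C.δ_pos
  have huc : UniformContinuous f := CompactSpace.uniformContinuous_of_continuous f.continuous
  obtain ⟨η, hη, h1⟩ := Metric.uniformContinuous_iff.1 huc δ hδ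
  obtain ⟨t, -, htf, ht⟩ := finite_cover_balls_of_compact (isCompact_univ (X := X))
    (half_pos (lt_min hη hδ))
  have h2 : ∀ x : X, ∃ z ∈ t, dist x z < min η δ / 2 := fun x => by
    obtain ⟨z, hz, hxz⟩ := mem_iUnion₂.1 (ht (mem_univ x))
    exact ⟨z, hz, hxz⟩
  choose c hct hc' using h2
  have hclose : ∀ x y : X, c x = c y → dist x y < η ∧ dist x y < δ := by
    intro x y hxy
    have h3 := hc' x
    have h4 := hc' y
    rw [← hxy] at h4
    have h5 := dist_triangle_right x y (c x)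
    have h6 : dist x y < min η δ := by linarith
    exact lt_min_iff.1 h6
  refine ⟨htf.toFinset.card * htf.toFinset.card * B, fun y => ?_⟩
  by_contra hcon
  rw [not_le] at hcon
  obtain ⟨F, hF1, hF2⟩ : ∃ F : Finset X, (F : Set X) ⊆ h ⁻¹' {y} ∧
      htf.toFinset.card * htf.toFinset.card * B < F.card := by
    have h3 : ((htf.toFinset.card * htf.toFinset.card * B + 1 : ℕ) : ℕ∞) ≤
        (h ⁻¹' {y}).encard := by
      push_cast
      exact Order.add_one_le_of_lt (by exact_mod_cast hcon)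
    obtain ⟨s, hs1, hs2⟩ := Set.exists_subset_encard_eq h3
    have h4 : s.Finite := Set.finite_of_encard_eq_coe hs2
    refine ⟨h4.toFinset, by rwa [h4.coe_toFinset], ?_⟩
    rw [h4.encard_eq_coe_toFinset_card] at hs2
    have h5 : h4.toFinset.card = htf.toFinset.card * htf.toFinset.card * B + 1 := by
      exact_mod_cast hs2
    omega
  have h3 : ∀ x x' : X, ∃ n : ℤ, x ≠ x' → ef < dist ((f ^ n) x) ((f ^ n) x') := by
    intro x x'
    by_cases hx : x = x'
    · exact ⟨0, fun h => absurd hx h⟩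
    by_contra hn
    push Not at hn
    apply hx
    have := hE.exp _ _ (orb_zp f x) (orb_zp f x') fun n => (hn n).2
    simpa using this
  choose n hn using h3
  obtain ⟨T, hT1, hT⟩ : ∃ T : ℕ, 1 ≤ T ∧ ∀ x ∈ F, ∀ x' ∈ F, (n x x').natAbs < T := by
    refine ⟨(F.sup fun x => F.sup fun x' => (n x x').natAbs) + 1, by omega,
      fun x hx x' hx' => ?_⟩
    refine Nat.lt_succ_of_le ?_
    exact (Finset.le_sup (f := fun x' => (n x x').natAbs) hx').trans
      (Finset.le_sup (f := fun x => F.sup fun x' => (n x x').natAbs) hx)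
  obtain ⟨w, -, hw⟩ := Finset.exists_lt_card_fiber_of_mul_lt_card_of_maps_to
    (s := F) (t := htf.toFinset ×ˢ htf.toFinset)
    (f := fun x => (c ((f ^ (-(T : ℤ))) x), c ((f ^ (T : ℤ)) x))) (n := B)
    (fun x _ => by
      rw [Finset.mem_product]
      exact ⟨htf.mem_toFinset.2 (hct _), htf.mem_toFinset.2 (hct _)⟩)
    (by rwa [Finset.card_product])
  set G := F.filter fun x => (c ((f ^ (-(T : ℤ))) x), c ((f ^ (T : ℤ)) x)) = w with hGd
  obtain ⟨x0, hx0⟩ : G.Nonempty := Finset.card_pos.1 (by omega)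
  have hx0' := Finset.mem_filter.1 hx0
  have hglue : ∀ x : X, ∃ z, x ∈ G → h z = h x0 ∧ Hm f x0 z ∧
      ∀ k : ℤ, k.natAbs < T → dist ((f ^ k) x) ((f ^ k) z) ≤ ε := by
    intro x
    by_cases hx : x ∈ G
    · have hx' := Finset.mem_filter.1 hx
      have e1 : (c ((f ^ (-(T : ℤ))) x0), c ((f ^ (T : ℤ)) x0)) =
          (c ((f ^ (-(T : ℤ))) x), c ((f ^ (T : ℤ)) x)) := hx0'.2.trans hx'.2.symm
      have e2 := hclose _ _ (congrArg Prod.fst e1)
      have e3 := hclose _ _ (congrArg Prod.snd e1)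
      have e4 : h x = y := hF1 hx'.1
      have e5 : h x0 = y := hF1 hx0'.1
      obtain ⟨z, hz⟩ := exists_glue C hT1 (e4.trans e5.symm) (h1 e2.1).le
        (by rw [dist_comm]; exact e3.2.le)
      exact ⟨z, fun _ => hz⟩
    · exact ⟨x, fun h => absurd h hx⟩
  choose z hz using hglue
  have hsub : (z '' (G : Set X)) ⊆ {y | h y = h x0 ∧ Hm f x0 y} := by
    rintro _ ⟨x, hx, rfl⟩
    exact ⟨(hz x hx).1, (hz x hx).2.1⟩
  have hinj : InjOn z (G : Set X) := by
    intro x hx x' hx' he
    by_contra hne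
    have hxF := (Finset.mem_filter.1 hx).1
    have hxF' := (Finset.mem_filter.1 hx').1
    have e1 := (hz x hx).2.2 _ (hT x hxF x' hxF')
    have e2 := (hz x' hx').2.2 _ (hT x hxF x' hxF')
    rw [← he] at e2
    have e3 := hn x x' hne
    have e4 := dist_triangle_right ((f ^ (n x x')) x) ((f ^ (n x x')) x')
      ((f ^ (n x x')) (z x))
    have e5 := C.ε_ef
    have e6 := C.ε_pos
    linarith
  have h5 := (Set.encard_le_encard hsub).trans (hB x0)
  rw [hinj.encard_image, Set.encard_coe_eq_coe_finsetCard] at h5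
  have h6 : G.card ≤ B := by exact_mod_cast h5
  omega

end Pool.Agent.Y331.EP
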