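import Mathlib

/-!
# A counting lemma from linear algebra
-/

set_option autoImplicit false

namespace Pool.Agent.Y331.EP

/-- Diagonally dominant differences: `ι` coordinates, each of which is changed by one pair of
elements of `ρ`, require at least `|ι|` elements of `ρ`. -/
theorem card_le_of_diag {ι ρ : Type*} [Fintype ι] [Fintype ρ] (a b : ι → ρ) (F : ρ → ι → ℝ)
    {s θ : ℝ} (hθ : 0 ≤ θ) (hd : ∀ t, s ≤ F (a t) t - F (b t) t)
    (ho : ∀ t t', t ≠ t' → |F (a t) t' - F (b t) t'| ≤ θ)
    (hs : (Fintype.card ι : ℝ) * θ < s) : Fintype.card ι ≤ Fintype.card ρ := by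
  classical
  set A : Matrix ι ι ℝ := fun t t' => F (a t) t' - F (b t) t' with hA
  set C : Matrix ι ρ ℝ := fun t r => (if r = a t then 1 else 0) - (if r = b t then 1 else 0)
    with hC
  set D : Matrix ρ ι ℝ := fun r t' => F r t' with hD
  have hmul : A = C * D := by
    ext t t'
    simp only [Matrix.mul_apply, hA, hC, hD, sub_mul, ite_mul, one_mul, zero_mul,
      Finset.sum_sub_distrib, Finset.sum_ite_eq', Finset.mem_univ, if_true]
  have hdet : A.det ≠ 0 := by
    apply det_ne_zero_of_sum_row_lt_diag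
    intro k
    calc ∑ j ∈ Finset.univ.erase k, ‖A k j‖ ≤ ∑ _j ∈ Finset.univ.erase k, θ := by
          refine Finset.sum_le_sum fun j hj => ?_
          rw [Real.norm_eq_abs]
          exact ho k j (Finset.ne_of_mem_erase hj).symm
      _ = ((Finset.univ.erase k).card : ℝ) * θ := by rw [Finset.sum_const, nsmul_eq_mul]
      _ ≤ (Fintype.card ι : ℝ) * θ := by
          apply mul_le_mul_of_nonneg_right _ hθ
          exact_mod_cast Finset.card_le_univ _
      _ < s := hs
      _ ≤ A k k := hd k
      _ ≤ ‖A k k‖ := le_abs_self _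
  have h1 : A.rank = Fintype.card ι :=
    Matrix.rank_of_isUnit A ((Matrix.isUnit_iff_isUnit_det A).2 (isUnit_iff_ne_zero.2 hdet))
  have h2 : A.rank ≤ C.rank := by
    rw [hmul]
    exact Matrix.rank_mul_le_left C D
  have h3 := Matrix.rank_le_card_width C
  omega

end Pool.Agent.Y331.EP
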