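import Pool.Agent.Y331.EP.Main

/-!
# Diamonds, homoclinic pairs and uncountable fibres
-/

set_option autoImplicit false
set_option linter.unusedSectionVars false

open Filter Topology Set

namespace Pool.Agent.Y331.EP

variable {X Y : Type*} [MetricSpace X] [MetricSpace Y]

/-- doubly asymptotic points -/
def Hm (f : X ≃ₜ X) (x y : X) : Prop :=
  Tendsto (fun n : ℕ => dist (f^[n] x) (f^[n] y)) atTop (𝓝 0) ∧
  Tendsto (fun n : ℕ => dist (f.symm^[n] x) (f.symm^[n] y)) atTop (𝓝 0)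

theorem zp_neg (f : X ≃ₜ X) (k : ℕ) (p : X) : (f ^ (-(k : ℤ))) p = f.symm^[k] p := by
  have h1 : f^[k] ((f ^ (-(k : ℤ))) p) = p := by
    rw [it_zp]
    simp
  have h2 : f^[k] (f.symm^[k] p) = p :=
    (Function.LeftInverse.iterate f.apply_symm_apply k) p
  exact f.injective.iterate k (h1.trans h2.symm)

theorem dia_of_hm [CompactSpace X] {f : X ≃ₜ X} {h : X → Y} {g : Y ≃ₜ Y} {e : ℝ} (hE : Ex f e)
    (hh : ∀ x, h (f x) = g (h x)) {x y : X} (hne : x ≠ y) (hxy : h x = h y) (hm : Hm f x y)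
    {δ : ℝ} (hδ : 0 < δ) : ∃ x0 y0 L c, Dia f h δ e x0 y0 L c := by
  obtain ⟨n, hn⟩ : ∃ n : ℤ, e < dist ((f ^ n) x) ((f ^ n) y) := by
    by_contra hcon
    push Not at hcon
    apply hne
    have := hE.exp _ _ (orb_zp f x) (orb_zp f y) hcon
    simpa using this
  have h1 := (hm.1.eventually (gt_mem_nhds hδ)).and
    ((hm.2.eventually (gt_mem_nhds hδ)).and (eventually_ge_atTop (n.natAbs + 1)))
  obtain ⟨T0, hT0⟩ := eventually_atTop.1 h1
  obtain ⟨h2, -, h4⟩ := hT0 (T0 + 1) (by omega)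
  obtain ⟨-, h3, -⟩ := hT0 T0 le_rfl
  obtain ⟨T, rfl⟩ : ∃ T, T0 = T := ⟨T0, rfl⟩
  have hT1 : n.natAbs + 1 ≤ T0 := (hT0 T0 le_rfl).2.2
  -- start at time `-(T0 + 1)`
  have hit : ∀ z, f^[2 * (T0 + 1)] ((f ^ (-((T0 + 1 : ℕ) : ℤ))) z) = f^[T0 + 1] z := fun z => by
    rw [it_zp, ← zp_nat]
    congr 1
    push_cast
    ring_nf
  have hit1 : ∀ z, f ((f ^ (-((T0 + 1 : ℕ) : ℤ))) z) = f.symm^[T0] z := fun z => by
    rw [← zp_neg, ← zp_succ]
    congr 1
    push_cast
    ring_nf
  refine ⟨(f ^ (-((T0 + 1 : ℕ) : ℤ))) x, (f ^ (-((T0 + 1 : ℕ) : ℤ))) y, 2 * (T0 + 1),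
    (((T0 + 1 : ℕ) : ℤ) + n).toNat, ⟨by omega, by omega, ?_, ?_, ?_, ?_⟩⟩
  · rw [hit1, hit1]
    exact h3.le
  · rw [hit, hit]
    exact h2.le
  · apply g.injective.iterate (T0 + 1)
    rw [← semi_iter hh, ← semi_iter hh, it_zp, it_zp]
    simpa using hxy
  · have hc' : ∀ z, f^[(((T0 + 1 : ℕ) : ℤ) + n).toNat] ((f ^ (-((T0 + 1 : ℕ) : ℤ))) z) =
        (f ^ n) z := fun z => by
      rw [it_zp, Int.toNat_of_nonneg (by omega)]
      congr 1
      ring_nf
    rw [hc', hc']
    exact hn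

/-- closeness at all large times implies convergence -/
theorem tend_of_close [CompactSpace X] {f : X ≃ₜ X} {e : ℝ} (hE : Ex f e) {x y : X} {L : ℕ}
    (h : ∀ n, L ≤ n → dist (f^[n] x) (f^[n] y) ≤ e) :
    Tendsto (fun n : ℕ => dist (f^[n] x) (f^[n] y)) atTop (𝓝 0) := by
  rw [Metric.tendsto_atTop]
  intro θ hθ
  obtain ⟨T, hT⟩ := unif_nat hE (half_pos hθ)
  refine ⟨L + T, fun n hn => ?_⟩
  rw [Real.dist_0_eq_abs, abs_of_nonneg dist_nonneg]
  have h1 := hT (f^[n - T] x) (f^[n - T] y) fun k hk => by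
    rw [← Function.iterate_add_apply, ← Function.iterate_add_apply]
    exact h _ (by omega)
  rw [← Function.iterate_add_apply, ← Function.iterate_add_apply] at h1
  have h2 : T + (n - T) = n := by omega
  rw [h2] at h1
  linarith

theorem Ex.symm {f : X ≃ₜ X} {e : ℝ} (h : Ex f e) : Ex f.symm e where
  pos := h.pos
  exp := fun x y hx hy hd => by
    have key : ∀ z : ℤ → X, Orb f.symm z → Orb f fun n => z (-n) := by
      intro z hz n
      show z (-(n + 1)) = f (z (-n))
      have h1 := hz (-(n + 1))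
      have h2 : -(n + 1) + 1 = -n := by ring
      rw [h2] at h1
      rw [h1, f.apply_symm_apply]
    have := h.exp _ _ (key x hx) (key y hy) fun n => hd (-n)
    simpa using this

/-- the image of a pseudo-orbit determines the image of the shadowing orbit -/
theorem im_eq {f : X ≃ₜ X} {g : Y ≃ₜ Y} {h : X → Y} {ef eg ε δ ν s v : ℝ} {τ : ℕ}
    (C : Cs f g h ef eg ε δ ν s v τ) {P P' y y' : ℤ → X} (hP : ∀ n, h (P n) = h (P' n))
    (hy : Orb f y) (hy' : Orb f y') (h1 : ∀ n, dist (P n) (y n) ≤ ε)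
    (h2 : ∀ n, dist (P' n) (y' n) ≤ ε) : h (y 0) = h (y' 0) := by
  refine C.exg.exp (fun n => h (y n)) (fun n => h (y' n)) (fun n => ?_) (fun n => ?_) fun n => ?_
  · show h (y (n + 1)) = g (h (y n))
    rw [hy, C.hh]
  · show h (y' (n + 1)) = g (h (y' n))
    rw [hy', C.hh]
  · have h3 := C.md _ _ (h1 n)
    have h4 := C.md _ _ (h2 n)
    rw [← hP] at h4
    have h5 := dist_triangle_left (h (y n)) (h (y' n)) (h (P n))
    have h6 := C.ν_eg
    show dist (h (y n)) (h (y' n)) ≤ eg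
    linarith

theorem hm_of_dia [CompactSpace X] {f : X ≃ₜ X} {g : Y ≃ₜ Y} {h : X → Y}
    {ef eg ε δ ν s v : ℝ} {τ : ℕ} (C : Cs f g h ef eg ε δ ν s v τ)
    (sh : ∀ x : ℤ → X, (∀ n, dist (f (x n)) (x (n + 1)) ≤ δ) →
      ∃ y, Orb f y ∧ ∀ n, dist (x n) (y n) ≤ ε)
    {x0 y0 : X} {L c : ℕ} (hD : Dia f h δ s x0 y0 L c) :
    ∃ x y, x ≠ y ∧ h x = h y ∧ Hm f x y := by
  have hcL := hD.cL
  have hc0 := hD.hc
  set P : ℤ → X := fun n => (f ^ n) x0 with hP
  set P' : ℤ → X := fun n => if 0 < n ∧ n < L then f^[n.toNat] y0 else (f ^ n) x0 with hP'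
  have hPch : ∀ n, dist (f (P' n)) (P' (n + 1)) ≤ δ := by
    intro n
    simp only [hP']
    by_cases h1 : 0 < n ∧ n < L
    · rw [if_pos h1]
      by_cases h2 : n + 1 < L
      · rw [if_pos ⟨by omega, h2⟩]
        have h3 : (n + 1).toNat = n.toNat + 1 := by omega
        rw [h3, Function.iterate_succ_apply', dist_self]
        exact C.δ_pos
      · rw [if_neg (by omega)]
        have h3 : n + 1 = (L : ℤ) := by omega
        have h4 : n.toNat + 1 = L := by omega
        rw [h3, zp_nat, ← Function.iterate_succ_apply' (⇑f) n.toNat y0, Nat.succ_eq_add_one, h4,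
          dist_comm]
        exact hD.dL
    · rw [if_neg h1]
      by_cases h2 : 0 < n + 1 ∧ n + 1 < L
      · rw [if_pos h2]
        have h3 : n = 0 := by omega
        subst h3
        simpa using hD.d0
      · rw [if_neg h2, zp_succ, dist_self]
        exact C.δ_pos
  obtain ⟨y, hy, hyd⟩ := sh P' hPch
  have himg : h (P 0) = h (y 0) := by
    refine im_eq C (P := P) (P' := P') (fun n => ?_) (orb_zp f x0) hy
      (fun n => by rw [hP, dist_self]; exact C.ε_pos.le) hyd
    simp only [hP, hP']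
    by_cases h1 : 0 < n ∧ n < L
    · rw [if_pos h1]
      obtain ⟨k, rfl⟩ : ∃ k : ℕ, n = k := ⟨n.toNat, by omega⟩
      rw [zp_nat, semi_iter C.hh, Int.toNat_natCast, semi_iter C.hh, hD.hxy]
    · rw [if_neg h1]
  have hP0 : P 0 = x0 := by simp [hP]
  rw [hP0] at himg
  have hout : ∀ n : ℤ, ¬ (0 < n ∧ n < L) → dist ((f ^ n) x0) (y n) ≤ ε := by
    intro n hn
    have := hyd n
    simp only [hP'] at this
    rwa [if_neg hn] at this
  have hee : ε ≤ ef := by
    have := C.ε_ef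
    have := C.ε_pos
    linarith
  refine ⟨x0, y 0, ?_, himg, ?_, ?_⟩
  · intro he
    have h1 := hyd (c : ℤ)
    simp only [hP'] at h1
    rw [if_pos (by omega), Int.toNat_natCast] at h1
    have h2 := orb_nat hy 0 c
    rw [zero_add] at h2
    rw [h2, ← he] at h1
    have h3 := hD.sep
    have h4 := C.ε_s
    have h5 := C.ε_pos
    rw [dist_comm] at h1
    linarith
  · refine tend_of_close C.exf (L := L) fun n hn => ?_
    have h1 := hout n (by omega)
    have h2 := orb_nat hy 0 n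
    rw [zero_add] at h2
    rw [zp_nat, h2] at h1
    linarith
  · refine tend_of_close C.exf.symm (L := 0) fun n _ => ?_
    have h1 := hout (-(n : ℤ)) (by omega)
    rw [orb_eq f hy, zp_neg, zp_neg] at h1
    linarith

theorem unc_of_dia [CompactSpace X] {f : X ≃ₜ X} {g : Y ≃ₜ Y} {h : X → Y}
    {ef eg ε δ ν s v : ℝ} {τ : ℕ} (C : Cs f g h ef eg ε δ ν s v τ)
    (sh : ∀ x : ℤ → X, (∀ n, dist (f (x n)) (x (n + 1)) ≤ δ) →
      ∃ y, Orb f y ∧ ∀ n, dist (x n) (y n) ≤ ε)
    {x0 y0 : X} {L c : ℕ} (hD : Dia f h δ s x0 y0 L c) : ∃ y, ¬ (h ⁻¹' {y}).Countable := by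
  classical
  have hcL := hD.cL
  have hc0 := hD.hc
  obtain ⟨q, q', a1, a2, a3, a4, -, -, a7, a8, a9, a10⟩ :=
    exists_pair C.hh C.δ_pos hD C.mx 0 x0
  obtain ⟨m, hm⟩ : ∃ m, m = L + τ + 0 + τ := ⟨_, rfl⟩
  rw [← hm] at a1 a2 a3 a4
  have hm0 : (0 : ℤ) < m := by omega
  have hcm : (c : ℤ) < m := by omega
  set Q : Set ℤ → ℤ → X := fun ω n => if n / m ∈ ω then q' (n % m).toNat else q (n % m).toNat
    with hQ
  have hch : ∀ ω n, dist (f (Q ω n)) (Q ω (n + 1)) ≤ δ := by
    intro ω n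
    have h1 := Int.emod_nonneg n hm0.ne'
    have h2 := Int.emod_lt_of_pos n hm0
    have h3 := Int.mul_ediv_add_emod n m
    obtain ⟨r, hr⟩ : ∃ r : ℕ, n % m = r := ⟨(n % m).toNat, by omega⟩
    have hq : ∀ p : ℕ → X, Pth f δ m p → dist (f (p r)) (p (r + 1)) ≤ δ := fun p hp =>
      hp r (by omega)
    by_cases hlast : n % m + 1 = m
    · -- the next block
      have e1 : (n + 1) % m = 0 := by
        rw [← Int.emod_add_emod, hlast, Int.emod_self]
      have h4 : r + 1 = m := by omega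
      have e2 : Q ω (n + 1) = q 0 := by
        simp only [hQ, e1, Int.toNat_zero]
        split_ifs
        · exact a7.symm
        · rfl
      rw [e2]
      simp only [hQ, hr, Int.toNat_natCast]
      split_ifs
      · have := hq q' a2
        rwa [h4, a4, ← a7] at this
      · have := hq q a1
        rwa [h4, a3] at this
    · have e1 : (n + 1) % m = n % m + 1 := by
        rw [← Int.emod_add_emod]
        exact Int.emod_eq_of_lt (by omega) (by omega)
      have e2 : (n + 1) / m = n / m := by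
        have h5 := Int.mul_ediv_add_emod (n + 1) m
        have h6 : (m : ℤ) * ((n + 1) / m) = m * (n / m) := by linarith
        exact mul_left_cancel₀ hm0.ne' h6
      have e3 : ((r : ℤ) + 1).toNat = r + 1 := by omega
      simp only [hQ, e1, e2, hr, Int.toNat_natCast, e3]
      split_ifs
      · exact hq q' a2
      · exact hq q a1
  choose y hy hyd using fun ω => sh (Q ω) (hch ω)
  have himg : ∀ ω, h (y ω 0) = h (y ∅ 0) := fun ω => by
    refine im_eq C (P := Q ω) (P' := Q ∅) (fun n => ?_) (hy ω) (hy ∅) (hyd ω) (hyd ∅)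
    simp only [hQ, mem_empty_iff_false, if_false]
    split_ifs
    · exact (a10 _).symm
    · rfl
  have hinj : Function.Injective fun ω => y ω 0 := by
    intro ω ω' he
    have he' : y ω 0 = y ω' 0 := he
    have hall : ∀ n, y ω n = y ω' n := fun n => by
      rw [orb_eq f (hy ω), orb_eq f (hy ω'), he']
    ext i
    have h1 := hyd ω (m * i + c)
    have h2 := hyd ω' (m * i + c)
    rw [← hall] at h2
    have e1 : ((m : ℤ) * i + c) % m = c := by
      rw [Int.mul_add_emod_self_left]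
      exact Int.emod_eq_of_lt (by omega) hcm
    have e2 : ((m : ℤ) * i + c) / m = i := by
      rw [Int.mul_add_ediv_left _ _ hm0.ne', Int.ediv_eq_zero_of_lt (by omega) hcm, add_zero]
    simp only [hQ, e1, e2, Int.toNat_natCast, a8, a9] at h1 h2
    have h3 := hD.sep
    have h4 := C.ε_s
    by_contra hcon
    rw [iff_iff_implies_and_implies, not_and_or] at hcon
    have h5 := dist_triangle_right (f^[c] x0) (f^[c] y0) (y ω (m * i + c))
    rcases hcon with hcon | hcon
    · push Not at hcon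
      rw [if_pos hcon.1] at h1
      rw [if_neg hcon.2] at h2
      linarith
    · push Not at hcon
      rw [if_neg hcon.2] at h1
      rw [if_pos hcon.1] at h2
      linarith
  refine ⟨h (y ∅ 0), fun hcount => ?_⟩
  have h1 : Countable (Set ℤ) := by
    have : Countable (h ⁻¹' {h (y ∅ 0)}) := hcount.to_subtype
    exact Function.Injective.countable (f := fun ω : Set ℤ => (⟨y ω 0, himg ω⟩ :
      h ⁻¹' {h (y ∅ 0)})) fun ω ω' he => hinj (congrArg Subtype.val he)
  obtain ⟨F, hF⟩ := exists_surjective_nat (Set ℤ)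
  refine Function.cantor_surjective (fun n : ℤ => F n.toNat) fun A => ?_
  obtain ⟨n, hn⟩ := hF A
  exact ⟨n, by simpa using hn⟩

end Pool.Agent.Y331.EP
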