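import Pool.Agent.Y331.EP.Man

/-!
# Entropy rigidity: coverings
-/

set_option autoImplicit false
set_option linter.unusedSectionVars false

open Filter Topology Set
open scoped Manifold ContDiff

namespace Pool.Agent.Y331.EP

open Pool.Agent.H721R2 Pool.Agent.H789R2.AN Pool.Agent.TH289 Pool.Agent.TH289.K
open Pool.Agent.TH289.L

/-- coverings of compact spaces have bounded fibres -/
theorem bounded_of_cover {X Y : Type*} [MetricSpace X] [CompactSpace X] [TopologicalSpace Y]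
    {h : X → Y} (hcov : IsCoveringMap h) : ∃ N : ℕ, ∀ y, (h ⁻¹' {y}).encard ≤ N := by
  classical
  have hloc : ∀ x, ∃ U ∈ 𝓝 x, InjOn h U := by
    intro x
    obtain ⟨e, hx, he⟩ := hcov.isLocalHomeomorph x
    refine ⟨e.source, e.open_source.mem_nhds hx, ?_⟩
    rw [he]
    exact e.injOn
  have hcomp : IsCompact (univ : Set X) := isCompact_univ
  obtain ⟨δ, hδ, hleb⟩ := lebesgue_number_lemma_of_metric hcomp
    (c := fun x : X => interior (hloc x).choose) (fun x => isOpen_interior)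
    (fun x _ => mem_iUnion.mpr ⟨x, mem_interior_iff_mem_nhds.mpr (hloc x).choose_spec.1⟩)
  have hinj : ∀ x y, dist x y < δ → h x = h y → x = y := by
    intro x y hxy he
    obtain ⟨i, hi⟩ := hleb x (mem_univ x)
    exact (hloc i).choose_spec.2 (interior_subset (hi (Metric.mem_ball_self hδ)))
      (interior_subset (hi (by rw [Metric.mem_ball, dist_comm]; exact hxy))) he
  obtain ⟨t, -, htf, ht⟩ := finite_cover_balls_of_compact hcomp (half_pos hδ)
  have h2 : ∀ x : X, ∃ z ∈ t, dist x z < δ / 2 := fun x => by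
    obtain ⟨z, hz, hxz⟩ := mem_iUnion₂.1 (ht (mem_univ x))
    exact ⟨z, hz, hxz⟩
  choose c hct hc using h2
  refine ⟨htf.toFinset.card, fun y => ?_⟩
  have h3 : (h ⁻¹' {y}).encard ≤ (t : Set X).encard := by
    refine Set.encard_le_encard_of_injOn (f := c) (fun x _ => hct x) ?_
    intro x hx x' hx' he
    refine hinj x x' ?_ ((show h x = y from hx).trans (show h x' = y from hx').symm)
    have h4 := hc x
    have h5 := hc x'
    rw [← he] at h5
    have := dist_triangle_right x x' (c x)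
    linarith
  rwa [htf.encard_eq_coe_toFinset_card] at h3

/-- existence of a periodic point -/
theorem exists_pp {X : Type*} [MetricSpace X] [CompactSpace X] [ConnectedSpace X] {f : X ≃ₜ X}
    {e : ℝ} (hE : Ex f e) (hS : Shad f) (hT : TT f) : ∃ p, p ∈ Function.periodicPts f := by
  obtain ⟨δ, hδ, hcl⟩ := closing hE hS (half_pos hE.pos) (by linarith)
  obtain ⟨N, hN⟩ := exists_mx hT hδ
  obtain ⟨x⟩ : Nonempty X := inferInstance
  obtain ⟨q, h1, h2, h3⟩ := hN (N + 1) (by omega) x x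
  obtain ⟨p, hp, -⟩ := hcl (N + 1) (by omega) q h1 (h3.trans h2.symm)
  exact ⟨p, N + 1, by omega, hp⟩

section manifold

variable {E : Type*} [NormedAddCommGroup E] [NormedSpace ℝ E] [FiniteDimensional ℝ E]

universe u

variable {M : Type u} [MetricSpace M] [CompactSpace M] [ConnectedSpace M]
    [ChartedSpace E M] [IsManifold 𝓘(ℝ, E) ∞ M]

theorem man_pp (f : Diffeomorph 𝓘(ℝ, E) 𝓘(ℝ, E) M M 1)
    (Es Eu : ∀ x : M, Submodule ℝ (TangentSpace 𝓘(ℝ, E) x)) (hA : IsAnosov f Es Eu)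
    (hT : TopTransitive f) : ∃ p, p ∈ Function.periodicPts f := by
  obtain ⟨ef, hE⟩ := ex_of_expansive (expansive_of_anosov f Es Eu hA)
  exact exists_pp hE (man_shad f Es Eu hA) (show TT f.toHomeomorph from hT)

/-- over Anosov diffeomorphisms with global product structure -/
theorem man_over {E' : Type*} [NormedAddCommGroup E'] [NormedSpace ℝ E']
    [FiniteDimensional ℝ E'] {M' : Type*} [MetricSpace M'] [CompactSpace M']
    [ConnectedSpace M'] [ChartedSpace E' M'] [IsManifold 𝓘(ℝ, E') ∞ M']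
    (f : Diffeomorph 𝓘(ℝ, E) 𝓘(ℝ, E) M M 1)
    (Es Eu : ∀ x : M, Submodule ℝ (TangentSpace 𝓘(ℝ, E) x)) (hA : IsAnosov f Es Eu)
    (hT : TopTransitive f) (g : Diffeomorph 𝓘(ℝ, E') 𝓘(ℝ, E') M' M' 1)
    (Es' Eu' : ∀ x : M', Submodule ℝ (TangentSpace 𝓘(ℝ, E') x)) (hB : IsAnosov g Es' Eu')
    (hG : GPS g.toHomeomorph) (hdim : Module.finrank ℝ E' ≤ Module.finrank ℝ E)
    (h : M → M') (hc : Continuous h) (hs : Function.Surjective h)
    (hh : ∀ x, h (f x) = g (h x)) :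
    List.TFAE [Dynamics.coverEntropy f univ ≤ Dynamics.coverEntropy g univ,
      ∃ C : ℕ, ∃ᶠ n in atTop, {x | f^[n] x = x}.ncard ≤ C * {y | g^[n] y = y}.ncard,
      ∀ y, (h ⁻¹' {y}).Countable,
      ∀ x y, h x = h y → Asym f x y → Asym f.symm x y → x = y,
      IsCoveringMap h,
      IsCoveringMap h ∧ (∀ y, (h ⁻¹' {y}).Finite) ∧ GPS f.toHomeomorph] := by
  have key := man_tfae f Es Eu hA hT g.toHomeomorph (expansive_of_anosov g Es' Eu' hB) h hc hs hh
  have k15 := key.out 0 4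
  have k25 := key.out 1 4
  have k35 := key.out 2 4
  have k45 := key.out 3 4
  have k56 : (∃ N : ℕ, ∀ y, (h ⁻¹' {y}).encard ≤ N) →
      IsCoveringMap h ∧ (∀ y, (h ⁻¹' {y}).Finite) ∧ GPS f.toHomeomorph := by
    rintro ⟨N, hN⟩
    have hfin : ∀ y, (h ⁻¹' {y}).Finite := fun y => Set.finite_of_encard_le_coe (hN y)
    obtain ⟨p, hp⟩ := man_pp f Es Eu hA hT
    obtain ⟨h1, -, h2, h3⟩ := man_finite_ext f Es Eu hA g Es' Eu' hB h hc hh
      (Or.inl (light_of_countable f.toHomeomorph h fun y => (hfin y).countable)) hG hp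
      (Or.inl ((hfin _).subset inter_subset_left)) hdim
    exact ⟨h1, h2, h3⟩
  have k65 : IsCoveringMap h → ∃ N : ℕ, ∀ y, (h ⁻¹' {y}).encard ≤ N := bounded_of_cover
  tfae_have 1 → 6 := fun h1 => k56 (k15.1 h1)
  tfae_have 2 → 6 := fun h1 => k56 (k25.1 h1)
  tfae_have 3 → 6 := fun h1 => k56 (k35.1 h1)
  tfae_have 4 → 6 := fun h1 => k56 (k45.1 h1)
  tfae_have 6 → 5 := fun h1 => h1.1
  tfae_have 5 → 1 := fun h1 => k15.2 (k65 h1)
  tfae_have 5 → 2 := fun h1 => k25.2 (k65 h1)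
  tfae_have 5 → 3 := fun h1 => k35.2 (k65 h1)
  tfae_have 5 → 4 := fun h1 => k45.2 (k65 h1)
  tfae_finish

/-- expansive factors of Anosov diffeomorphisms with global product structure -/
theorem man_factor {E' : Type*} [NormedAddCommGroup E'] [NormedSpace ℝ E']
    [FiniteDimensional ℝ E'] {M' : Type*} [MetricSpace M'] [CompactSpace M']
    [ConnectedSpace M'] [ChartedSpace E' M']
    (f : Diffeomorph 𝓘(ℝ, E) 𝓘(ℝ, E) M M 1)
    (Es Eu : ∀ x : M, Submodule ℝ (TangentSpace 𝓘(ℝ, E) x)) (hA : IsAnosov f Es Eu)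
    (hG : GPS f.toHomeomorph) (g : M' ≃ₜ M') (hg : Expansive g)
    (hdim : Module.finrank ℝ E' ≤ Module.finrank ℝ E)
    (h : M → M') (hc : Continuous h) (hs : Function.Surjective h)
    (hh : ∀ x, h (f x) = g (h x)) :
    List.TFAE [Dynamics.coverEntropy f univ ≤ Dynamics.coverEntropy g univ,
      ∃ C : ℕ, ∃ᶠ n in atTop, {x | f^[n] x = x}.ncard ≤ C * {y | g^[n] y = y}.ncard,
      ∀ y, (h ⁻¹' {y}).Countable,
      ∀ x y, h x = h y → Asym f x y → Asym f.symm x y → x = y,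
      IsCoveringMap h,
      IsCoveringMap h ∧ (∀ y, (h ⁻¹' {y}).Finite) ∧ GPS g] := by
  have hT := (man_self f Es Eu hA hG).1
  have key := man_tfae f Es Eu hA hT g hg h hc hs hh
  have k15 := key.out 0 4
  have k25 := key.out 1 4
  have k35 := key.out 2 4
  have k45 := key.out 3 4
  have k56 : (∃ N : ℕ, ∀ y, (h ⁻¹' {y}).encard ≤ N) →
      IsCoveringMap h ∧ (∀ y, (h ⁻¹' {y}).Finite) ∧ GPS g := by
    rintro ⟨N, hN⟩
    have hfin : ∀ y, (h ⁻¹' {y}).Finite := fun y => Set.finite_of_encard_le_coe (hN y)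
    obtain ⟨p, hp⟩ := man_pp f Es Eu hA hT
    obtain ⟨h1, -, h2, h3, -⟩ := man_exp_one_cover f Es Eu hA hG g hg h hc hh hp
      (Or.inl ((hfin _).subset inter_subset_left)) hdim
    exact ⟨h1, h2, h3⟩
  have k65 : IsCoveringMap h → ∃ N : ℕ, ∀ y, (h ⁻¹' {y}).encard ≤ N := bounded_of_cover
  tfae_have 1 → 6 := fun h1 => k56 (k15.1 h1)
  tfae_have 2 → 6 := fun h1 => k56 (k25.1 h1)
  tfae_have 3 → 6 := fun h1 => k56 (k35.1 h1)
  tfae_have 4 → 6 := fun h1 => k56 (k45.1 h1)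
  tfae_have 6 → 5 := fun h1 => h1.1
  tfae_have 5 → 1 := fun h1 => k15.2 (k65 h1)
  tfae_have 5 → 2 := fun h1 => k25.2 (k65 h1)
  tfae_have 5 → 3 := fun h1 => k35.2 (k65 h1)
  tfae_have 5 → 4 := fun h1 => k45.2 (k65 h1)
  tfae_finish

/-- both directions, with the universal covers -/
theorem man_both {E' : Type*} [NormedAddCommGroup E'] [NormedSpace ℝ E']
    [FiniteDimensional ℝ E'] {M' : Type*} [MetricSpace M'] [CompactSpace M']
    [ConnectedSpace M'] [ChartedSpace E' M'] [IsManifold 𝓘(ℝ, E') ∞ M']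
    (f : Diffeomorph 𝓘(ℝ, E) 𝓘(ℝ, E) M M 1)
    (Es Eu : ∀ x : M, Submodule ℝ (TangentSpace 𝓘(ℝ, E) x)) (hA : IsAnosov f Es Eu)
    (hT : TopTransitive f) (g : Diffeomorph 𝓘(ℝ, E') 𝓘(ℝ, E') M' M' 1)
    (Es' Eu' : ∀ x : M', Submodule ℝ (TangentSpace 𝓘(ℝ, E') x)) (hB : IsAnosov g Es' Eu')
    (hG : GPS f.toHomeomorph ∨ GPS g.toHomeomorph)
    (hdim : Module.finrank ℝ E' ≤ Module.finrank ℝ E)
    (h : M → M') (hc : Continuous h) (hs : Function.Surjective h)
    (hh : ∀ x, h (f x) = g (h x)) :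
    List.TFAE [Dynamics.coverEntropy f univ ≤ Dynamics.coverEntropy g univ,
      ∃ C : ℕ, ∃ᶠ n in atTop, {x | f^[n] x = x}.ncard ≤ C * {y | g^[n] y = y}.ncard,
      ∀ y, (h ⁻¹' {y}).Countable,
      ∀ x y, h x = h y → Asym f x y → Asym f.symm x y → x = y,
      IsCoveringMap h,
      IsCoveringMap h ∧ (∀ y, (h ⁻¹' {y}).Finite) ∧
        (∃ π : E → M, IsCoveringMap π ∧ Function.Surjective π) ∧
        ∃ π : E' → M', IsCoveringMap π ∧ Function.Surjective π] := by
  rcases hG with hG | hG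
  · have key := man_factor f Es Eu hA hG g.toHomeomorph (expansive_of_anosov g Es' Eu' hB) hdim
      h hc hs hh
    have k56 : IsCoveringMap h → IsCoveringMap h ∧ (∀ y, (h ⁻¹' {y}).Finite) ∧
        (∃ π : E → M, IsCoveringMap π ∧ Function.Surjective π) ∧
        ∃ π : E' → M', IsCoveringMap π ∧ Function.Surjective π := by
      intro h5
      obtain ⟨h1, h2, h3⟩ := (key.out 4 5).1 h5
      exact ⟨h1, h2, (man_self f Es Eu hA hG).2, (man_self g Es' Eu' hB h3).2⟩
    tfae_have 1 ↔ 5 := key.out 0 4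
    tfae_have 2 ↔ 5 := key.out 1 4
    tfae_have 3 ↔ 5 := key.out 2 4
    tfae_have 4 ↔ 5 := key.out 3 4
    tfae_have 5 → 6 := k56
    tfae_have 6 → 5 := fun h6 => h6.1
    tfae_finish
  · have key := man_over f Es Eu hA hT g Es' Eu' hB hG hdim h hc hs hh
    have k56 : IsCoveringMap h → IsCoveringMap h ∧ (∀ y, (h ⁻¹' {y}).Finite) ∧
        (∃ π : E → M, IsCoveringMap π ∧ Function.Surjective π) ∧
        ∃ π : E' → M', IsCoveringMap π ∧ Function.Surjective π := by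
      intro h5
      obtain ⟨h1, h2, h3⟩ := (key.out 4 5).1 h5
      exact ⟨h1, h2, (man_self f Es Eu hA h3).2, (man_self g Es' Eu' hB hG).2⟩
    tfae_have 1 ↔ 5 := key.out 0 4
    tfae_have 2 ↔ 5 := key.out 1 4
    tfae_have 3 ↔ 5 := key.out 2 4
    tfae_have 4 ↔ 5 := key.out 3 4
    tfae_have 5 → 6 := k56
    tfae_have 6 → 5 := fun h6 => h6.1
    tfae_finish

end manifold

end Pool.Agent.Y331.EP
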