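import Pool.Agent.Y331.EP.Dia

/-!
# Entropy rigidity of semiconjugacies: the complete abstract theorem
-/

set_option autoImplicit false
set_option linter.unusedSectionVars false

open Filter Topology Set

namespace Pool.Agent.Y331.EP

variable {X Y : Type*} [MetricSpace X] [MetricSpace Y]

/-- the constants exist, with shadowing -/
theorem exists_cs' [CompactSpace X] [ConnectedSpace X] [CompactSpace Y] {f : X ≃ₜ X}
    {g : Y ≃ₜ Y} {h : X → Y} {ef eg : ℝ} (hE : Ex f ef) (hS : Shad f) (hT : TT f)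
    (hG : Ex g eg) (hc : Continuous h) (hs : Function.Surjective h)
    (hh : ∀ x, h (f x) = g (h x)) :
    ∃ (ε δ : ℝ) (τ : ℕ), 0 < δ ∧ 1 ≤ τ ∧ 4 * ε ≤ ef ∧
      Cs f g h ef eg ε δ (eg / 4) ef (eg / 2) τ ∧
      ∀ x : ℤ → X, (∀ n, dist (f (x n)) (x (n + 1)) ≤ δ) →
        ∃ y, Orb f y ∧ ∀ n, dist (x n) (y n) ≤ ε := by
  obtain ⟨ε, δ, τ, hδ, hτ, hε4, C⟩ := exists_cs hE hS hT hG hc hs hh
  obtain ⟨δ', hδ', hsh⟩ := hS ε C.ε_pos
  have hm : 0 < min δ δ' := lt_min hδ hδ'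
  obtain ⟨N, hN⟩ := exists_mx hT hm
  refine ⟨ε, min δ δ', N + 1, hm, by omega, hε4, ?_, fun x hx => hsh x fun n =>
    (hx n).trans (min_le_right _ _)⟩
  exact {
    exf := C.exf
    exg := C.exg
    hh := C.hh
    surj := C.surj
    ε_pos := C.ε_pos
    ε_ef := C.ε_ef
    ε_s := C.ε_s
    δ_pos := hm.le
    cl := fun n hn q hq hqn => C.cl n hn q (fun k hk => (hq k hk).trans (min_le_left _ _)) hqn
    md := C.md
    ν_v := C.ν_v
    ν_eg := C.ν_eg
    mx := hN _ (by omega) }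

/-- **Entropy and periodic point rigidity of semiconjugacies.** -/
theorem abs_full [CompactSpace X] [ConnectedSpace X] [CompactSpace Y] {f : X ≃ₜ X}
    {g : Y ≃ₜ Y} {h : X → Y} {ef eg : ℝ} (hE : Ex f ef) (hS : Shad f) (hT : TT f)
    (hG : Ex g eg) (hc : Continuous h) (hs : Function.Surjective h)
    (hh : ∀ x, h (f x) = g (h x)) :
    List.TFAE [Dynamics.coverEntropy f univ ≤ Dynamics.coverEntropy g univ,
      ∃ C : ℕ, ∃ᶠ n in atTop, Pn f n ≤ C * Pn g n,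
      ∀ y, (h ⁻¹' {y}).Countable,
      ∀ x y, h x = h y → Hm f x y → x = y,
      ∃ N : ℕ, ∀ y, (h ⁻¹' {y}).encard ≤ N] := by
  obtain ⟨ε, δ, τ, hδ, hτ, hε4, C, sh⟩ := exists_cs' hE hS hT hG hc hs hh
  have key := abs_main hE hS hT hG hc hs hh
  have hdf := dia_or_fin hE hh hδ
  tfae_have 1 ↔ 5 := key.out 0 3
  tfae_have 2 ↔ 5 := key.out 1 3
  tfae_have 5 → 3 := by
    rintro ⟨N, hN⟩ y
    exact (Set.finite_of_encard_le_coe (hN y)).countable
  tfae_have 3 → 5 := by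
    intro h3
    rcases hdf with ⟨x0, y0, L, c, hD⟩ | h5
    · obtain ⟨y, hy⟩ := unc_of_dia C sh hD
      exact absurd (h3 y) hy
    · exact h5
  tfae_have 4 → 5 := by
    intro h4
    rcases hdf with ⟨x0, y0, L, c, hD⟩ | h5
    · obtain ⟨x, y, hne, hxy, hm⟩ := hm_of_dia C sh hD
      exact absurd (h4 x y hxy hm) hne
    · exact h5
  tfae_have 5 → 4 := by
    intro h5 x y hxy hm
    by_contra hne
    obtain ⟨x0, y0, L, c, hD⟩ := dia_of_hm hE hh hne hxy hm hδ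
    have h1 := (key.out 0 3).2 h5
    exact ent_lt hτ C hD h1
  tfae_finish

end Pool.Agent.Y331.EP
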