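import Pool.Agent.Y331.EP.Ent

/-!
# Entropy rigidity of semiconjugacies: the abstract theorem
-/

set_option autoImplicit false
set_option linter.unusedSectionVars false

open Filter Topology Set

namespace Pool.Agent.Y331.EP

variable {X Y : Type*} [MetricSpace X] [MetricSpace Y]

/-- the constants exist -/
theorem exists_cs [CompactSpace X] [ConnectedSpace X] [CompactSpace Y] {f : X ≃ₜ X}
    {g : Y ≃ₜ Y} {h : X → Y} {ef eg : ℝ} (hE : Ex f ef) (hS : Shad f) (hT : TT f)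
    (hG : Ex g eg) (hc : Continuous h) (hs : Function.Surjective h)
    (hh : ∀ x, h (f x) = g (h x)) :
    ∃ (ε δ : ℝ) (τ : ℕ), 0 < δ ∧ 1 ≤ τ ∧ 4 * ε ≤ ef ∧
      Cs f g h ef eg ε δ (eg / 4) ef (eg / 2) τ := by
  have huc : UniformContinuous h := CompactSpace.uniformContinuous_of_continuous hc
  have hge := hG.pos
  have hfe := hE.pos
  obtain ⟨η, hη, h1⟩ := Metric.uniformContinuous_iff.1 huc (eg / 4) (by linarith)
  have hm : 0 < min (ef / 4) (η / 2) := lt_min (by linarith) (by linarith)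
  have hm1 : min (ef / 4) (η / 2) ≤ ef / 4 := min_le_left _ _
  have hm2 : min (ef / 4) (η / 2) ≤ η / 2 := min_le_right _ _
  obtain ⟨δ, hδ, hcl⟩ := closing hE hS hm (by linarith)
  obtain ⟨N, hN⟩ := exists_mx hT hδ
  refine ⟨min (ef / 4) (η / 2), δ, N + 1, hδ, by omega, by linarith, ?_⟩
  exact {
    exf := hE
    exg := hG
    hh := hh
    surj := hs
    ε_pos := hm
    ε_ef := by linarith
    ε_s := by linarith
    δ_pos := hδ.le
    cl := hcl
    md := fun x x' hx => (h1 (show dist x x' < η by linarith)).le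
    ν_v := by linarith
    ν_eg := by linarith
    mx := hN _ (by omega) }

/-- bounded fibres compare the numbers of periodic points -/
theorem per_le_of_fib [CompactSpace X] [CompactSpace Y] {f : X ≃ₜ X} {g : Y ≃ₜ Y} {h : X → Y}
    {ef eg : ℝ} (hE : Ex f ef) (hG : Ex g eg) (hh : ∀ x, h (f x) = g (h x)) {N : ℕ}
    (hN : ∀ y, (h ⁻¹' {y}).encard ≤ N) {n : ℕ} (hn : 1 ≤ n) : Pn f n ≤ N * Pn g n := by
  classical
  have hf := fin_per hE hn
  have hg := fin_per hG hn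
  rw [Pn, Pn, Set.ncard_eq_toFinset_card _ hf, Set.ncard_eq_toFinset_card _ hg]
  refine Finset.card_le_mul_card_image_of_maps_to (f := h) ?_ N ?_
  · intro p hp
    rw [hf.mem_toFinset] at hp
    rw [hg.mem_toFinset]
    show g^[n] (h p) = h p
    have hp' : f^[n] p = p := hp
    rw [← semi_iter hh, hp']
  · intro y _
    have h1 : (((hf.toFinset.filter fun p => h p = y) : Finset X) : Set X) ⊆ h ⁻¹' {y} := by
      intro p hp
      rw [Finset.mem_coe, Finset.mem_filter] at hp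
      exact hp.2
    have h2 := (Set.encard_le_encard h1).trans (hN y)
    rw [Set.encard_coe_eq_coe_finsetCard] at h2
    exact_mod_cast h2

/-- the entropy of a factor with a diamond is smaller -/
theorem ent_lt [CompactSpace X] [ConnectedSpace X] [CompactSpace Y] {f : X ≃ₜ X}
    {g : Y ≃ₜ Y} {h : X → Y} {ef eg ε δ ν s : ℝ} {τ : ℕ} (hτ : 1 ≤ τ)
    (C : Cs f g h ef eg ε δ ν s (eg / 2) τ) {x0 y0 : X} {L c : ℕ}
    (hD : Dia f h δ s x0 y0 L c) :
    ¬ Dynamics.coverEntropy f univ ≤ Dynamics.coverEntropy g univ := by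
  intro hcon
  obtain ⟨x⟩ : Nonempty X := inferInstance
  have : Nonempty Y := ⟨h x⟩
  have hg0 := Dynamics.coverEntropy_nonneg (F := univ) g (univ_nonempty (α := Y))
  obtain ⟨S0, -, -, hS0⟩ := ent_le_sep C.exg 0
  have htop : Dynamics.coverEntropy g univ ≠ ⊤ := ne_top_of_le_ne_top (EReal.coe_ne_top _) hS0
  have hbot : Dynamics.coverEntropy g univ ≠ ⊥ := by
    intro h0
    rw [h0] at hg0
    exact absurd hg0 (by decide)
  obtain ⟨H, hH⟩ : ∃ H : ℝ, Dynamics.coverEntropy g univ = (H : EReal) :=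
    ⟨(Dynamics.coverEntropy g univ).toReal, (EReal.coe_toReal htop hbot).symm⟩
  rw [hH] at hcon hg0
  have hH0 : 0 ≤ H := by exact_mod_cast hg0
  -- large K
  obtain ⟨K, hK⟩ := exists_nat_gt (Real.exp (((L + τ + τ + 2 * τ : ℕ) : ℝ) * H))
  obtain ⟨ℓ0, hℓ⟩ := core C hD K
  obtain ⟨S, hS1, hS2, hS3⟩ := ent_le_sep C.exg ℓ0
  have h1 : K * S.card ≤ Pn f (L + τ + ℓ0 + τ) := hℓ ℓ0 le_rfl S hS1
  have h2 := ent_ge_per C.exf C.δ_pos C.ε_ef C.cl C.mx (a := L + τ + ℓ0 + τ) (by omega)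
  have h3 := h2.trans hcon
  rw [hH] at hS3
  rw [EReal.coe_le_coe_iff] at h3 hS3
  have hKpos : (0 : ℝ) < K := (Real.exp_pos _).trans hK
  have hSpos : (0 : ℝ) < S.card := by exact_mod_cast hS2.card_pos
  have h4 : Real.log K + Real.log S.card ≤ Real.log (Pn f (L + τ + ℓ0 + τ)) := by
    rw [← Real.log_mul hKpos.ne' hSpos.ne']
    apply Real.log_le_log (by positivity)
    exact_mod_cast h1
  have h5 : ((L + τ + τ + 2 * τ : ℕ) : ℝ) * H < Real.log K := by
    rwa [Real.lt_log_iff_exp_lt hKpos]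
  have hl : (0 : ℝ) < (ℓ0 : ℝ) + 1 := by positivity
  rw [le_div_iff₀ hl] at hS3
  have hm : (0 : ℝ) < ((L + τ + ℓ0 + τ + 2 * τ : ℕ) : ℝ) := by
    have : 0 < L + τ + ℓ0 + τ + 2 * τ := by omega
    exact_mod_cast this
  rw [div_le_iff₀ hm] at h3
  push_cast at h3 h5 hS3
  nlinarith

/-- comparison of the numbers of periodic points bounds the entropy -/
theorem ent_le_of_per [CompactSpace X] [CompactSpace Y] [Nonempty X] [Nonempty Y] {f : X ≃ₜ X}
    {g : Y ≃ₜ Y} {h : X → Y} {ef eg ε δ ν s v : ℝ} {τ : ℕ} (hτ : 1 ≤ τ)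
    (C : Cs f g h ef eg ε δ ν s v τ) (hε : 4 * ε ≤ ef) {N : ℕ}
    (hN : ∀ n, 1 ≤ n → Pn f n ≤ N * Pn g n) :
    Dynamics.coverEntropy f univ ≤ Dynamics.coverEntropy g univ := by
  by_contra hcon
  rw [not_le] at hcon
  obtain ⟨b, hb1, hb2⟩ := EReal.exists_between_coe_real hcon
  have h1 : ExpGrowth.expGrowthSup
      (fun n => (Dynamics.netMaxcard g univ (Cl Y (eg / 2)) n).toENNReal) < (b : EReal) :=
    (Dynamics.netEntropyEntourage_le_coverEntropy g univ
      (Cl_unif (half_pos C.exg.pos))).trans_lt hb1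
  have h2 := ExpGrowth.eventually_le_exp h1
  obtain ⟨n1, hn1⟩ := eventually_atTop.1 h2
  -- upper bounds for the entropy of `f`
  have h3 : ∀ ℓ ≥ n1, Dynamics.coverEntropy f univ ≤
      (((Real.log (N + 1) + b * (ℓ + τ)) / (ℓ + 1) : ℝ) : EReal) := by
    intro ℓ hℓ
    obtain ⟨S, hS1, hS2, hS3⟩ := ent_le_sep C.exf ℓ
    refine hS3.trans ?_
    rw [EReal.coe_le_coe_iff]
    have hl : (0 : ℝ) < (ℓ : ℝ) + 1 := by positivity
    apply div_le_div_of_nonneg_right _ hl.le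
    have h4 := sep_le_per C.exf C.δ_pos C.cl C.mx hτ (by linarith) ℓ S hS1
    have h5 := h4.trans (hN (ℓ + τ) (by omega))
    have h6 := hn1 (ℓ + τ) (by omega)
    have h7 := per_le_net C.exg (n := ℓ + τ) (by omega)
    have h8 : ((Pn g (ℓ + τ) : ℕ) : ENNReal) ≤ EReal.exp ((b : EReal) * ((ℓ + τ : ℕ) : EReal)) :=
      le_trans (by simpa using ENat.toENNReal_mono h7) h6
    have h9 : (Pn g (ℓ + τ) : ℝ) ≤ Real.exp (b * (ℓ + τ)) := by
      have e1 : (b : EReal) * ((ℓ + τ : ℕ) : EReal) = ((b * ((ℓ + τ : ℕ) : ℝ) : ℝ) : EReal) := by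
        rw [EReal.coe_mul]
        rfl
      rw [e1, EReal.exp_coe] at h8
      have h10 := ENNReal.toReal_mono ENNReal.ofReal_ne_top h8
      rw [ENNReal.toReal_ofReal (Real.exp_pos _).le, ENNReal.toReal_natCast] at h10
      push_cast at h10
      exact h10
    have hSpos : (0 : ℝ) < S.card := by exact_mod_cast hS2.card_pos
    have hN0 : (0 : ℝ) ≤ N := by positivity
    have h10 : (S.card : ℝ) ≤ (N + 1) * Real.exp (b * (ℓ + τ)) := by
      have h11 : (S.card : ℝ) ≤ N * Pn g (ℓ + τ) := by exact_mod_cast h5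
      have h12 := Real.exp_pos (b * (ℓ + τ))
      nlinarith [mul_le_mul_of_nonneg_left h9 hN0]
    have h11 := Real.log_le_log hSpos h10
    rwa [Real.log_mul (by positivity) (Real.exp_pos _).ne', Real.log_exp] at h11
  have h4 : Tendsto (fun ℓ : ℕ => (((Real.log (N + 1) + b * (ℓ + τ)) / (ℓ + 1) : ℝ) : EReal))
      atTop (𝓝 (b : EReal)) := by
    refine (continuous_coe_real_ereal.tendsto _).comp ?_
    have h5 : Tendsto (fun ℓ : ℕ => ((ℓ : ℝ) + 1)⁻¹) atTop (𝓝 0) := by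
      have := tendsto_one_div_add_atTop_nhds_zero_nat (𝕜 := ℝ)
      simpa using this
    have h6 := (h5.const_mul (Real.log (N + 1) + b * τ - b)).const_add b
    rw [mul_zero, add_zero] at h6
    refine h6.congr fun ℓ => ?_
    have hl : (ℓ : ℝ) + 1 ≠ 0 := by positivity
    field_simp
    ring
  have h5 := ge_of_tendsto h4 (eventually_atTop.2 ⟨n1, h3⟩)
  exact absurd h5 (not_le.2 hb2)

/-- there are periodic points of all large periods -/
theorem per_pos [CompactSpace X] [Nonempty X] {f : X ≃ₜ X} {e ε δ : ℝ} (hE : Ex f e)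
    (cl : ∀ n : ℕ, 1 ≤ n → ∀ q : ℕ → X, (∀ k < n, dist (f (q k)) (q (k + 1)) ≤ δ) → q n = q 0 →
      ∃ p, f^[n] p = p ∧ ∀ k ≤ n, dist (q k) (f^[k] p) ≤ ε)
    {n : ℕ} (hn : 1 ≤ n) (hM : Mx f δ n) : 1 ≤ Pn f n := by
  obtain ⟨x⟩ : Nonempty X := inferInstance
  obtain ⟨q, h1, h2, h3⟩ := hM x x
  obtain ⟨p, hp, -⟩ := cl n hn q h1 (h3.trans h2.symm)
  have hfin := fin_per hE hn
  rw [Pn]
  exact (Set.ncard_pos hfin).2 ⟨p, hp⟩

/-- **Entropy and periodic point rigidity of semiconjugacies.** -/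
theorem abs_main [CompactSpace X] [ConnectedSpace X] [CompactSpace Y] {f : X ≃ₜ X}
    {g : Y ≃ₜ Y} {h : X → Y} {ef eg : ℝ} (hE : Ex f ef) (hS : Shad f) (hT : TT f)
    (hG : Ex g eg) (hc : Continuous h) (hs : Function.Surjective h)
    (hh : ∀ x, h (f x) = g (h x)) :
    List.TFAE [Dynamics.coverEntropy f univ ≤ Dynamics.coverEntropy g univ,
      ∃ C : ℕ, ∃ᶠ n in atTop, Pn f n ≤ C * Pn g n,
      ∃ C : ℕ, ∀ n, 1 ≤ n → Pn f n ≤ C * Pn g n,
      ∃ N : ℕ, ∀ y, (h ⁻¹' {y}).encard ≤ N] := by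
  obtain ⟨ε, δ, τ, hδ, hτ, hε4, C⟩ := exists_cs hE hS hT hG hc hs hh
  obtain ⟨x⟩ : Nonempty X := inferInstance
  have : Nonempty Y := ⟨h x⟩
  tfae_have 1 → 4 := by
    intro h1
    rcases dia_or_fin hE hh hδ with ⟨x0, y0, L, c, hD⟩ | h2
    · exact absurd h1 (ent_lt hτ C hD)
    · exact h2
  tfae_have 2 → 4 := by
    rintro ⟨K, h1⟩
    rcases dia_or_fin hE hh hδ with ⟨x0, y0, L, c, hD⟩ | h2
    · exfalso
      have hge := hG.pos
      obtain ⟨n0, hn0⟩ := per_growth C (by linarith) hD (K + 1)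
      obtain ⟨n1, hn1⟩ := exists_mx hT hδ
      obtain ⟨n, hn, h3⟩ := (h1.and_eventually (eventually_ge_atTop (n0 + n1 + 1))).exists
      have h4 := hn0 n (by omega)
      have h5 := per_pos hE C.cl (n := n) (by omega) (hn1 n (by omega))
      have h6 : Pn g n = 0 := by
        rw [Nat.add_mul, Nat.one_mul] at h4
        omega
      rw [h6, Nat.mul_zero] at hn
      omega
    · exact h2
  tfae_have 4 → 3 := by
    rintro ⟨N, hN⟩
    exact ⟨N, fun n hn => per_le_of_fib hE hG hh hN hn⟩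
  tfae_have 3 → 2 := by
    rintro ⟨N, hN⟩
    refine ⟨N, Eventually.frequently ?_⟩
    filter_upwards [eventually_ge_atTop 1] with n hn
    exact hN n hn
  tfae_have 3 → 1 := by
    rintro ⟨N, hN⟩
    exact ent_le_of_per hτ C hε4 hN
  tfae_finish

end Pool.Agent.Y331.EP
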