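import Pool.Agent.Y331.EP.Full
import Pool.Agent.TH289.L.P3
import Pool.Agent.TH289.L.P4
import Pool.Agent.H721R2.Shadow
import Pool.Agent.Y330.G.A9

/-!
# Entropy rigidity of semiconjugacies between Anosov diffeomorphisms
-/

set_option autoImplicit false
set_option linter.unusedSectionVars false

open Filter Topology Set
open scoped Manifold ContDiff

namespace Pool.Agent.Y331.EP

open Pool.Agent.H721R2 Pool.Agent.H789R2.AN Pool.Agent.TH289 Pool.Agent.TH289.K
open Pool.Agent.TH289.L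

/-- pseudo-orbits stay close to orbits for finite times -/
theorem acc {X : Type*} [MetricSpace X] [CompactSpace X] (f : X ≃ₜ X) (N : ℕ) :
    ∀ ε > 0, ∃ δ > 0, ∀ x : ℤ → X, (∀ n, dist (f (x n)) (x (n + 1)) ≤ δ) →
      ∀ n : ℤ, ∀ r : ℕ, r ≤ N → dist (f^[r] (x n)) (x (n + r)) ≤ ε := by
  induction N with
  | zero =>
    intro ε hε
    refine ⟨1, one_pos, fun x _ n r hr => ?_⟩
    obtain rfl : r = 0 := by omega
    simp only [Function.iterate_zero, id, Nat.cast_zero, add_zero, dist_self]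
    exact hε.le
  | succ N ih =>
    intro ε hε
    have huc : UniformContinuous f := CompactSpace.uniformContinuous_of_continuous f.continuous
    obtain ⟨η, hη, h1⟩ := Metric.uniformContinuous_iff.1 huc (ε / 2) (half_pos hε)
    obtain ⟨δ, hδ, h2⟩ := ih (min ε (η / 2)) (lt_min hε (half_pos hη))
    refine ⟨min δ (ε / 2), lt_min hδ (half_pos hε), fun x hx n r hr => ?_⟩
    have h3 := h2 x fun n => (hx n).trans (min_le_left _ _)
    rcases Nat.lt_or_ge r (N + 1) with hr' | hr'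
    · exact (h3 n r (by omega)).trans (min_le_left _ _)
    · obtain rfl : r = N + 1 := by omega
      have h4 := h3 n N le_rfl
      have h5 : dist (f^[N] (x n)) (x (n + N)) < η :=
        (h4.trans (min_le_right _ _)).trans_lt (half_lt_self hη)
      have h6 := h1 h5
      have h7 := (hx (n + N)).trans (min_le_right _ _)
      rw [Function.iterate_succ_apply']
      have h8 := dist_triangle (f (f^[N] (x n))) (f (x (n + N))) (x (n + N + 1))
      have e1 : n + ((N + 1 : ℕ) : ℤ) = n + N + 1 := by push_cast; ring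
      rw [e1]
      linarith

/-- shadowing for a power gives shadowing -/
theorem shad_of_iter {X : Type*} [MetricSpace X] [CompactSpace X] {f : X ≃ₜ X} {N : ℕ}
    (hN : 1 ≤ N) (h : Shad (iterHomeo f N)) : Shad f := by
  intro ε hε
  obtain ⟨η, hη, h1⟩ := unif_iter f N (half_pos hε)
  obtain ⟨δ1, hδ1, h2⟩ := h (η / 2) (half_pos hη)
  obtain ⟨δ, hδ, h3⟩ := acc f N (min (ε / 2) δ1) (lt_min (half_pos hε) hδ1)
  refine ⟨δ, hδ, fun x hx => ?_⟩
  have h4 := h3 x hx
  have hN0 : (0 : ℤ) < N := by exact_mod_cast hN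
  obtain ⟨y, hy, hyd⟩ := h2 (fun n => x (N * n)) fun n => by
    have h5 := (h4 (N * n) N le_rfl).trans (min_le_right _ _)
    show dist (f^[N] (x (N * n))) (x (N * (n + 1))) ≤ δ1
    have e1 : (N : ℤ) * (n + 1) = N * n + N := by ring
    rw [e1]
    exact h5
  have hy' : ∀ n, y (n + 1) = f^[N] (y n) := hy
  refine ⟨fun n => f^[(n % N).toNat] (y (n / N)), fun n => ?_, fun n => ?_⟩
  · show f^[((n + 1) % N).toNat] (y ((n + 1) / N)) = f (f^[(n % N).toNat] (y (n / N)))
    rw [← Function.iterate_succ_apply' f]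
    have h5 := Int.emod_nonneg n hN0.ne'
    have h6 := Int.emod_lt_of_pos n hN0
    have h7 := Int.mul_ediv_add_emod n N
    have h8 := Int.mul_ediv_add_emod (n + 1) N
    by_cases hlast : n % N + 1 = N
    · have e1 : (n + 1) % N = 0 := by
        rw [← Int.emod_add_emod, hlast, Int.emod_self]
      have e2 : (n + 1) / N = n / N + 1 := by
        have h9 : (N : ℤ) * ((n + 1) / N) = N * (n / N + 1) := by
          rw [mul_add, mul_one]
          linarith
        exact mul_left_cancel₀ hN0.ne' h9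
      have e3 : (n % N).toNat.succ = N := by omega
      rw [e1, e2, e3, hy']
      rfl
    · have e1 : (n + 1) % N = n % N + 1 := by
        rw [← Int.emod_add_emod]
        exact Int.emod_eq_of_lt (by omega) (by omega)
      have e2 : (n + 1) / N = n / N := by
        have h9 : (N : ℤ) * ((n + 1) / N) = N * (n / N) := by linarith
        exact mul_left_cancel₀ hN0.ne' h9
      have e3 : (n % N + 1).toNat = (n % N).toNat.succ := by omega
      rw [e1, e2, e3]
  · have h5 := Int.emod_nonneg n hN0.ne'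
    have h6 := Int.emod_lt_of_pos n hN0
    have h7 := Int.mul_ediv_add_emod n N
    obtain ⟨r, hr⟩ : ∃ r : ℕ, n % N = r := ⟨(n % N).toNat, by omega⟩
    have h8 := (h4 (N * (n / N)) r (by omega)).trans (min_le_left _ _)
    have e1 : (N : ℤ) * (n / N) + r = n := by rw [← hr]; exact h7
    rw [e1] at h8
    have h9 := h1 (x (N * (n / N))) (y (n / N)) ((hyd (n / N)).trans_lt (half_lt_self hη)) r
      (by omega)
    show dist (x n) (f^[(n % N).toNat] (y (n / N))) ≤ ε
    rw [hr, Int.toNat_natCast]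
    have h10 := dist_triangle_left (x n) (f^[r] (y (n / N))) (f^[r] (x (N * (n / N))))
    linarith

/-- transfer of shadowing -/
theorem shad_transfer {X Y : Type*} [MetricSpace X] [MetricSpace Y] [CompactSpace X]
    [CompactSpace Y] {f : X ≃ₜ X} {g : Y ≃ₜ Y} (φ : X ≃ₜ Y) (hφ : ∀ x, φ (f x) = g (φ x))
    (h : Shad g) : Shad f := by
  intro ε hε
  have huc : UniformContinuous φ.symm :=
    CompactSpace.uniformContinuous_of_continuous φ.symm.continuous
  have huc' : UniformContinuous φ := CompactSpace.uniformContinuous_of_continuous φ.continuous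
  obtain ⟨η, hη, h1⟩ := Metric.uniformContinuous_iff.1 huc ε hε
  obtain ⟨δ1, hδ1, h2⟩ := h (η / 2) (half_pos hη)
  obtain ⟨δ, hδ, h3⟩ := Metric.uniformContinuous_iff.1 huc' δ1 hδ1
  refine ⟨δ / 2, half_pos hδ, fun x hx => ?_⟩
  obtain ⟨y, hy, hyd⟩ := h2 (fun n => φ (x n)) fun n => by
    show dist (g (φ (x n))) (φ (x (n + 1))) ≤ δ1
    rw [← hφ]
    exact (h3 ((hx n).trans_lt (half_lt_self hδ))).le
  refine ⟨fun n => φ.symm (y n), fun n => ?_, fun n => ?_⟩
  · show φ.symm (y (n + 1)) = f (φ.symm (y n))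
    apply φ.injective
    rw [hφ, φ.apply_symm_apply, φ.apply_symm_apply, hy]
  · have h4 := h1 ((hyd n).trans_lt (half_lt_self hη))
    rw [φ.symm_apply_apply] at h4
    exact h4.le

/-- topological expansivity -/
theorem ex_of_expansive {X : Type*} [MetricSpace X] [CompactSpace X] {f : X ≃ₜ X}
    (h : Expansive f) : ∃ e, Ex f e := by
  obtain ⟨𝒰, h𝒰, h1⟩ := h
  rw [nhdsSet_diagonal_eq_uniformity, Metric.mem_uniformity_dist] at h𝒰
  obtain ⟨ε, hε, h2⟩ := h𝒰
  refine ⟨ε / 2, half_pos hε, fun x y hx hy hd => h1 _ _ fun n => ⟨h2 ?_, h2 ?_⟩⟩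
  · have h3 := hd n
    rw [orb_eq f hx, orb_eq f hy, zp_nat, zp_nat] at h3
    exact h3.trans_lt (half_lt_self hε)
  · have h3 := hd (-(n : ℤ))
    rw [orb_eq f hx, orb_eq f hy, zp_neg, zp_neg] at h3
    exact h3.trans_lt (half_lt_self hε)

theorem asym_tendsto {X : Type*} [MetricSpace X] [CompactSpace X] (f : X → X) (x y : X) :
    Asym f x y ↔ Tendsto (fun n : ℕ => dist (f^[n] x) (f^[n] y)) atTop (𝓝 0) := by
  unfold Asym
  rw [nhdsSet_diagonal_eq_uniformity, tendsto_uniformity_iff_dist_tendsto_zero]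

theorem hm_iff {X : Type*} [MetricSpace X] [CompactSpace X] (f : X ≃ₜ X) (x y : X) :
    Hm f x y ↔ Asym f x y ∧ Asym f.symm x y := by
  rw [asym_tendsto, asym_tendsto]
  rfl

section manifold

variable {E : Type*} [NormedAddCommGroup E] [NormedSpace ℝ E] [FiniteDimensional ℝ E]

universe u

theorem exists_shad_model {M : Type u} [TopologicalSpace M] [T2Space M] [CompactSpace M]
    [ChartedSpace E M] [IsManifold 𝓘(ℝ, E) ∞ M] (f : Diffeomorph 𝓘(ℝ, E) 𝓘(ℝ, E) M M 1)
    (Es Eu : ∀ x : M, Submodule ℝ (TangentSpace 𝓘(ℝ, E) x)) (hA : IsAnosov f Es Eu) :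
    ∃ (Y : Type u) (_ : MetricSpace Y) (_ : CompactSpace Y) (φ : M ≃ₜ Y) (f' : Y ≃ₜ Y),
      (∀ x, φ (f x) = f' (φ x)) ∧ Shad f' := by
  obtain ⟨m, e, he, hemb, hinj⟩ := exists_embedding_euclidean_of_compact (I := 𝓘(ℝ, E)) (M := M)
  let iY : MetricSpace M := hemb.isEmbedding.comapMetricSpace e
  have hiso : ∀ x y : M, dist x y = ‖e x - e y‖ := fun x y => dist_eq_norm (e x) (e y)
  have he1 : ContMDiff 𝓘(ℝ, E) (𝓡 m) 1 e := he.of_le (by simp)
  obtain ⟨N, S, hN, hg, -⟩ := Pool.Agent.Y330.G.exists_sys_pos hiso he1 hinj f Es Eu hA 1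
  refine ⟨M, iY, inferInstance, Homeomorph.refl M, f.toHomeomorph, fun _ => rfl,
    shad_of_iter hN ?_⟩
  rw [← hg]
  intro ε hε
  obtain ⟨ε₀, hε₀, hsh⟩ := S.shadowing
  have hK := S.one_le_K
  have hK0 : 0 < 8 * S.K := by linarith
  refine ⟨min ε₀ (ε / (8 * S.K)), lt_min hε₀ (by positivity), fun x hx => ?_⟩
  obtain ⟨y, hy, hyd⟩ := hsh _ (min_le_left _ _) x hx
  refine ⟨y, hy, fun n => ?_⟩
  rw [dist_comm]
  refine (hyd n).trans ?_
  calc 8 * S.K * min ε₀ (ε / (8 * S.K)) ≤ 8 * S.K * (ε / (8 * S.K)) :=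
        mul_le_mul_of_nonneg_left (min_le_right _ _) hK0.le
    _ = ε := by field_simp

theorem man_shad {M : Type u} [MetricSpace M] [CompactSpace M]
    [ChartedSpace E M] [IsManifold 𝓘(ℝ, E) ∞ M] (f : Diffeomorph 𝓘(ℝ, E) 𝓘(ℝ, E) M M 1)
    (Es Eu : ∀ x : M, Submodule ℝ (TangentSpace 𝓘(ℝ, E) x)) (hA : IsAnosov f Es Eu) :
    Shad f.toHomeomorph := by
  obtain ⟨Y, iY, cY, φ, f', hφ, hS⟩ := exists_shad_model f Es Eu hA
  exact shad_transfer φ hφ hS

/-- the general theorem for Anosov diffeomorphisms -/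
theorem man_tfae {M : Type u} [MetricSpace M] [CompactSpace M] [ConnectedSpace M]
    [ChartedSpace E M] [IsManifold 𝓘(ℝ, E) ∞ M] (f : Diffeomorph 𝓘(ℝ, E) 𝓘(ℝ, E) M M 1)
    (Es Eu : ∀ x : M, Submodule ℝ (TangentSpace 𝓘(ℝ, E) x)) (hA : IsAnosov f Es Eu)
    (hT : TopTransitive f) {Y : Type*} [MetricSpace Y] [CompactSpace Y] (g : Y ≃ₜ Y)
    (hg : Expansive g) (h : M → Y) (hc : Continuous h) (hs : Function.Surjective h)
    (hh : ∀ x, h (f x) = g (h x)) :
    List.TFAE [Dynamics.coverEntropy f univ ≤ Dynamics.coverEntropy g univ,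
      ∃ C : ℕ, ∃ᶠ n in atTop, {x | f^[n] x = x}.ncard ≤ C * {y | g^[n] y = y}.ncard,
      ∀ y, (h ⁻¹' {y}).Countable,
      ∀ x y, h x = h y → Asym f x y → Asym f.symm x y → x = y,
      ∃ N : ℕ, ∀ y, (h ⁻¹' {y}).encard ≤ N] := by
  obtain ⟨eg, hG⟩ := ex_of_expansive hg
  obtain ⟨ef, hE⟩ := ex_of_expansive (expansive_of_anosov f Es Eu hA)
  have key := abs_full hE (man_shad f Es Eu hA) (show TT f.toHomeomorph from hT) hG hc hs hh
  have e4 : (∀ x y, h x = h y → Hm f.toHomeomorph x y → x = y) ↔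
      ∀ x y, h x = h y → Asym f x y → Asym f.symm x y → x = y := by
    constructor
    · intro h1 x y hxy h2 h3
      exact h1 x y hxy ((hm_iff _ _ _).2 ⟨h2, h3⟩)
    · intro h1 x y hxy h2
      obtain ⟨h3, h4⟩ := (hm_iff _ _ _).1 h2
      exact h1 x y hxy h3 h4
  rw [← e4]
  exact key

end manifold

end Pool.Agent.Y331.EP
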