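import Pool.Agent.Y331.EP.Bd

/-!
# Transitivity of Anosov diffeomorphisms and homoclinic identifications
-/

set_option autoImplicit false
set_option linter.unusedSectionVars false

open Filter Topology Set
open scoped Manifold ContDiff

namespace Pool.Agent.Y331.EP

open Pool.Agent.H721R2 Pool.Agent.H789R2.AN Pool.Agent.TH289 Pool.Agent.TH289.K
open Pool.Agent.TH289.L

/-- homoclinic identifications in terms of the topology -/
theorem hm_all_iff {X Y : Type*} [MetricSpace X] [CompactSpace X] (f : X ≃ₜ X) (h : X → Y) :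
    (∀ x y, h x = h y → Hm f x y → x = y) ↔
      ∀ x y, h x = h y → Asym f x y → Asym f.symm x y → x = y := by
  constructor
  · intro h1 x y hxy h2 h3
    exact h1 x y hxy ((hm_iff _ _ _).2 ⟨h2, h3⟩)
  · intro h1 x y hxy h2
    obtain ⟨h3, h4⟩ := (hm_iff _ _ _).1 h2
    exact h1 x y hxy h3 h4

theorem hm_set {X Y : Type*} [MetricSpace X] [CompactSpace X] (f : X ≃ₜ X) (h : X → Y) (x : X) :
    {y | h y = h x ∧ Hm f x y} = {y | h y = h x ∧ Asym f x y ∧ Asym f.symm x y} := by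
  ext y
  simp only [mem_ofPred_eq, hm_iff]

theorem asym_refl {X : Type*} [MetricSpace X] [CompactSpace X] (f : X → X) (x : X) :
    Asym f x x := by
  rw [asym_tendsto]
  simp

/-- separation gives the bound one -/
theorem one_of_sep {X Y : Type*} [MetricSpace X] [CompactSpace X] (f : X ≃ₜ X) (h : X → Y)
    (h1 : ∀ x y, h x = h y → Asym f x y → Asym f.symm x y → x = y) :
    ∃ B : ℕ, ∀ x, {y | h y = h x ∧ Asym f x y ∧ Asym f.symm x y}.encard ≤ B := by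
  refine ⟨1, fun x => ?_⟩
  have h2 : {y | h y = h x ∧ Asym f x y ∧ Asym f.symm x y} ⊆ {x} := by
    rintro y ⟨e1, e2, e3⟩
    exact (h1 x y e1.symm e2 e3).symm
  refine (Set.encard_le_encard h2).trans ?_
  rw [encard_singleton]
  rfl

/-- orbits with dense forward orbit exist -/
theorem exists_dense_orbit {Y : Type*} [MetricSpace Y] [CompactSpace Y] [Nonempty Y]
    {g : Y ≃ₜ Y} (hT : TopTransitive g) :
    ∃ y₀, Dense {z | ∃ n : ℕ, g^[n] y₀ = z ∨ g^[n] z = y₀} := by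
  have hb := TopologicalSpace.isBasis_countableBasis Y
  set B := TopologicalSpace.countableBasis Y with hB
  have hd : Dense (⋂ U ∈ B, ⋃ n : ℕ, g^[n] ⁻¹' U) := by
    refine dense_biInter_of_isOpen (fun U hU => ?_) (TopologicalSpace.countable_countableBasis Y)
      fun U hU => ?_
    · exact isOpen_iUnion fun n => (hb.isOpen hU).preimage (g.continuous.iterate n)
    · rw [dense_iff_inter_open]
      intro V hV hVn
      have hUn : U.Nonempty := TopologicalSpace.nonempty_of_mem_countableBasis hU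
      obtain ⟨n, w, ⟨v, hv, rfl⟩, hw⟩ := hT V U hV hVn (hb.isOpen hU) hUn
      exact ⟨v, hv, mem_iUnion.2 ⟨n, hw⟩⟩
  obtain ⟨y₀, hy₀⟩ := hd.nonempty
  refine ⟨y₀, ?_⟩
  rw [hb.dense_iff]
  intro U hU hUn
  obtain ⟨n, hn⟩ := mem_iUnion.1 (mem_iInter₂.1 hy₀ U hU)
  exact ⟨g^[n] y₀, hn, n, Or.inl rfl⟩

section manifold

variable {E : Type*} [NormedAddCommGroup E] [NormedSpace ℝ E] [FiniteDimensional ℝ E]

universe u

variable {M : Type u} [MetricSpace M] [CompactSpace M] [ConnectedSpace M]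
    [ChartedSpace E M] [IsManifold 𝓘(ℝ, E) ∞ M]

/-- bounded fibres without transitivity -/
theorem man_bdd (f : Diffeomorph 𝓘(ℝ, E) 𝓘(ℝ, E) M M 1)
    (Es Eu : ∀ x : M, Submodule ℝ (TangentSpace 𝓘(ℝ, E) x)) (hA : IsAnosov f Es Eu)
    {Y : Type*} [MetricSpace Y] [CompactSpace Y] (g : Y ≃ₜ Y) (hg : Expansive g)
    (h : M → Y) (hc : Continuous h) (hh : ∀ x, h (f x) = g (h x))
    (h4 : ∃ B : ℕ, ∀ x, {y | h y = h x ∧ Asym f x y ∧ Asym f.symm x y}.encard ≤ B) :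
    ∃ N : ℕ, ∀ y, (h ⁻¹' {y}).encard ≤ N := by
  obtain ⟨eg, hG⟩ := ex_of_expansive hg
  obtain ⟨ef, hE⟩ := ex_of_expansive (expansive_of_anosov f Es Eu hA)
  obtain ⟨B, hB⟩ := h4
  refine bdd_of_count hE (man_shad f Es Eu hA) hG hc hh (B := B) fun x => ?_
  rw [hm_set]
  exact hB x

/-- **Transitivity.** -/
theorem man_trans {E' : Type*} [NormedAddCommGroup E'] [NormedSpace ℝ E']
    [FiniteDimensional ℝ E'] {M' : Type*} [MetricSpace M'] [CompactSpace M']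
    [ConnectedSpace M'] [ChartedSpace E' M'] [IsManifold 𝓘(ℝ, E') ∞ M']
    (f : Diffeomorph 𝓘(ℝ, E) 𝓘(ℝ, E) M M 1)
    (Es Eu : ∀ x : M, Submodule ℝ (TangentSpace 𝓘(ℝ, E) x)) (hA : IsAnosov f Es Eu)
    (g : Diffeomorph 𝓘(ℝ, E') 𝓘(ℝ, E') M' M' 1)
    (Es' Eu' : ∀ x : M', Submodule ℝ (TangentSpace 𝓘(ℝ, E') x)) (hB : IsAnosov g Es' Eu')
    (hG : GPS g.toHomeomorph) (h : M → M') (hc : Continuous h) (hh : ∀ x, h (f x) = g (h x)) :
    List.TFAE [TopTransitive f ∧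
        Dynamics.coverEntropy f univ ≤ Dynamics.coverEntropy g (range h),
      ∀ x y, h x = h y → Asym f x y → Asym f.symm x y → x = y,
      ∃ B : ℕ, ∀ x, {y | h y = h x ∧ Asym f x y ∧ Asym f.symm x y}.encard ≤ B,
      ∀ y, (h ⁻¹' {y}).Countable,
      TopTransitive f ∧ GPS f.toHomeomorph ∧ ∃ N : ℕ, ∀ y, (h ⁻¹' {y}).encard ≤ N] := by
  have hgx := expansive_of_anosov g Es' Eu' hB
  obtain ⟨eg, hGe⟩ := ex_of_expansive hgx
  obtain ⟨ef, hE⟩ := ex_of_expansive (expansive_of_anosov f Es Eu hA)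
  have key := fun hT : TopTransitive f =>
    abs_range hE (man_shad f Es Eu hA) (show TT f.toHomeomorph from hT) hGe hc hh
  have k34 : (∃ B : ℕ, ∀ x, {y | h y = h x ∧ Asym f x y ∧ Asym f.symm x y}.encard ≤ B) →
      ∀ y, (h ⁻¹' {y}).Countable := by
    intro h4 y
    obtain ⟨N, hN⟩ := man_bdd f Es Eu hA g.toHomeomorph hgx h hc hh h4
    exact (Set.finite_of_encard_le_coe (hN y)).countable
  have k45 : (∀ y, (h ⁻¹' {y}).Countable) →
      TopTransitive f ∧ GPS f.toHomeomorph ∧ ∃ N : ℕ, ∀ y, (h ⁻¹' {y}).encard ≤ N := by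
    intro h3
    obtain ⟨h1, h2, -⟩ := man_light f Es Eu hA g Es' Eu' hB h hc hh
      (Or.inl (light_of_countable f.toHomeomorph h h3)) hG
    exact ⟨h1, h2, ((key h1).out 1 3).1 h3⟩
  tfae_have 2 → 3 := one_of_sep f.toHomeomorph h
  tfae_have 3 → 4 := k34
  tfae_have 4 → 5 := k45
  tfae_have 5 → 1 := fun ⟨h1, _, h3⟩ => ⟨h1, ((key h1).out 0 3).2 h3⟩
  tfae_have 1 → 2 := fun ⟨h1, h2⟩ =>
    (hm_all_iff f.toHomeomorph h).1 (((key h1).out 0 2).1 h2)
  tfae_finish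

/-- finite coverings over Anosov diffeomorphisms with global product structure -/
theorem man_over' {E' : Type*} [NormedAddCommGroup E'] [NormedSpace ℝ E']
    [FiniteDimensional ℝ E'] {M' : Type*} [MetricSpace M'] [CompactSpace M']
    [ConnectedSpace M'] [ChartedSpace E' M'] [IsManifold 𝓘(ℝ, E') ∞ M']
    (f : Diffeomorph 𝓘(ℝ, E) 𝓘(ℝ, E) M M 1)
    (Es Eu : ∀ x : M, Submodule ℝ (TangentSpace 𝓘(ℝ, E) x)) (hA : IsAnosov f Es Eu)
    (g : Diffeomorph 𝓘(ℝ, E') 𝓘(ℝ, E') M' M' 1)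
    (Es' Eu' : ∀ x : M', Submodule ℝ (TangentSpace 𝓘(ℝ, E') x)) (hB : IsAnosov g Es' Eu')
    (hG : GPS g.toHomeomorph) (hdim : Module.finrank ℝ E' ≤ Module.finrank ℝ E)
    (h : M → M') (hc : Continuous h) (hs : Function.Surjective h)
    (hh : ∀ x, h (f x) = g (h x)) :
    List.TFAE [TopTransitive f ∧ Dynamics.coverEntropy f univ ≤ Dynamics.coverEntropy g univ,
      TopTransitive f ∧ ∃ C : ℕ, ∃ᶠ n in atTop,
        {x | f^[n] x = x}.ncard ≤ C * {y | g^[n] y = y}.ncard,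
      ∀ y, (h ⁻¹' {y}).Countable,
      ∃ B : ℕ, ∀ x, {y | h y = h x ∧ Asym f x y ∧ Asym f.symm x y}.encard ≤ B,
      IsCoveringMap h,
      IsCoveringMap h ∧ (∀ y, (h ⁻¹' {y}).Finite) ∧ GPS f.toHomeomorph] := by
  have key := fun hT : TopTransitive f => man_over f Es Eu hA hT g Es' Eu' hB hG hdim h hc hs hh
  have kt := man_trans f Es Eu hA g Es' Eu' hB hG h hc hh
  have kt34 := kt.out 3 4
  have kT : (∀ y, (h ⁻¹' {y}).Countable) → TopTransitive f := fun h3 => (kt34.1 h3).1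
  tfae_have 1 → 6 := fun ⟨h1, h2⟩ => ((key h1).out 0 5).1 h2
  tfae_have 2 → 6 := fun ⟨h1, h2⟩ => ((key h1).out 1 5).1 h2
  tfae_have 3 → 6 := fun h3 => ((key (kT h3)).out 2 5).1 h3
  tfae_have 4 → 3 := fun h4 => (kt.out 2 3).1 h4
  tfae_have 3 → 4 := fun h4 => (kt.out 2 3).2 h4
  tfae_have 6 → 5 := fun h6 => h6.1
  tfae_have 5 → 3 := by
    intro h5 y
    obtain ⟨N, hN⟩ := bounded_of_cover h5
    exact (Set.finite_of_encard_le_coe (hN y)).countable
  tfae_have 3 → 1 := fun h3 => ⟨kT h3, ((key (kT h3)).out 0 2).2 h3⟩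
  tfae_have 3 → 2 := fun h3 => ⟨kT h3, ((key (kT h3)).out 1 2).2 h3⟩
  tfae_finish

/-- both directions, with the universal covers -/
theorem man_both' {E' : Type*} [NormedAddCommGroup E'] [NormedSpace ℝ E']
    [FiniteDimensional ℝ E'] {M' : Type*} [MetricSpace M'] [CompactSpace M']
    [ConnectedSpace M'] [ChartedSpace E' M'] [IsManifold 𝓘(ℝ, E') ∞ M']
    (f : Diffeomorph 𝓘(ℝ, E) 𝓘(ℝ, E) M M 1)
    (Es Eu : ∀ x : M, Submodule ℝ (TangentSpace 𝓘(ℝ, E) x)) (hA : IsAnosov f Es Eu)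
    (g : Diffeomorph 𝓘(ℝ, E') 𝓘(ℝ, E') M' M' 1)
    (Es' Eu' : ∀ x : M', Submodule ℝ (TangentSpace 𝓘(ℝ, E') x)) (hB : IsAnosov g Es' Eu')
    (hG : GPS f.toHomeomorph ∨ GPS g.toHomeomorph)
    (hdim : Module.finrank ℝ E' ≤ Module.finrank ℝ E)
    (h : M → M') (hc : Continuous h) (hs : Function.Surjective h)
    (hh : ∀ x, h (f x) = g (h x)) :
    List.TFAE [TopTransitive f ∧ Dynamics.coverEntropy f univ ≤ Dynamics.coverEntropy g univ,
      TopTransitive f ∧ ∃ C : ℕ, ∃ᶠ n in atTop,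
        {x | f^[n] x = x}.ncard ≤ C * {y | g^[n] y = y}.ncard,
      ∀ y, (h ⁻¹' {y}).Countable,
      ∃ B : ℕ, ∀ x, {y | h y = h x ∧ Asym f x y ∧ Asym f.symm x y}.encard ≤ B,
      IsCoveringMap h,
      IsCoveringMap h ∧ (∀ y, (h ⁻¹' {y}).Finite) ∧
        (∃ π : E → M, IsCoveringMap π ∧ Function.Surjective π) ∧
        ∃ π : E' → M', IsCoveringMap π ∧ Function.Surjective π] := by
  have key := fun hT : TopTransitive f => man_both f Es Eu hA hT g Es' Eu' hB hG hdim h hc hs hh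
  have k4b : (∃ B : ℕ, ∀ x, {y | h y = h x ∧ Asym f x y ∧ Asym f.symm x y}.encard ≤ B) →
      ∀ y, (h ⁻¹' {y}).Countable := by
    intro h4 y
    obtain ⟨N, hN⟩ := man_bdd f Es Eu hA g.toHomeomorph (expansive_of_anosov g Es' Eu' hB)
      h hc hh h4
    exact (Set.finite_of_encard_le_coe (hN y)).countable
  have kT3 : (∀ y, (h ⁻¹' {y}).Countable) → TopTransitive f := fun h3 => by
    rcases hG with hG | hG
    · exact (man_self f Es Eu hA hG).1
    · have h2 := (man_trans f Es Eu hA g Es' Eu' hB hG h hc hh).out 3 4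
      exact (h2.1 h3).1
  have kT5 : IsCoveringMap h → ∀ y, (h ⁻¹' {y}).Countable := fun h5 y => by
    obtain ⟨N, hN⟩ := bounded_of_cover h5
    exact (Set.finite_of_encard_le_coe (hN y)).countable
  tfae_have 1 → 6 := fun ⟨h1, h2⟩ => ((key h1).out 0 5).1 h2
  tfae_have 2 → 6 := fun ⟨h1, h2⟩ => ((key h1).out 1 5).1 h2
  tfae_have 3 → 6 := fun h3 => ((key (kT3 h3)).out 2 5).1 h3
  tfae_have 4 → 3 := k4b
  tfae_have 3 → 4 := fun h3 => one_of_sep f.toHomeomorph h (((key (kT3 h3)).out 2 3).1 h3)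
  tfae_have 6 → 5 := fun h6 => h6.1
  tfae_have 5 → 3 := kT5
  tfae_have 3 → 1 := fun h3 => ⟨kT3 h3, ((key (kT3 h3)).out 0 2).2 h3⟩
  tfae_have 3 → 2 := fun h3 => ⟨kT3 h3, ((key (kT3 h3)).out 1 2).2 h3⟩
  tfae_finish

/-- **Open factors.** -/
theorem man_open_trans {Y : Type*} [MetricSpace Y] [CompactSpace Y]
    (f : Diffeomorph 𝓘(ℝ, E) 𝓘(ℝ, E) M M 1)
    (Es Eu : ∀ x : M, Submodule ℝ (TangentSpace 𝓘(ℝ, E) x)) (hA : IsAnosov f Es Eu)
    (g : Y ≃ₜ Y) (hg : Expansive g) (hgT : TopTransitive g)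
    (h : M → Y) (hc : Continuous h) (ho : IsOpenMap h) (hs : Function.Surjective h)
    (hh : ∀ x, h (f x) = g (h x)) :
    List.TFAE [TopTransitive f ∧ Dynamics.coverEntropy f univ ≤ Dynamics.coverEntropy g univ,
      TopTransitive f ∧ ∃ C : ℕ, ∃ᶠ n in atTop,
        {x | f^[n] x = x}.ncard ≤ C * {y | g^[n] y = y}.ncard,
      TopTransitive f ∧ ∀ y, (h ⁻¹' {y}).Countable,
      ∀ x y, h x = h y → Asym f x y → Asym f.symm x y → x = y,
      ∃ B : ℕ, ∀ x, {y | h y = h x ∧ Asym f x y ∧ Asym f.symm x y}.encard ≤ B,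
      IsCoveringMap h,
      TopTransitive f ∧ IsCoveringMap h ∧ ∀ y, (h ⁻¹' {y}).Finite] := by
  obtain ⟨x⟩ : Nonempty M := inferInstance
  have : Nonempty Y := ⟨h x⟩
  obtain ⟨y₀, hy₀⟩ := exists_dense_orbit hgT
  have key := fun hT : TopTransitive f => man_tfae f Es Eu hA hT g hg h hc hs hh
  have kb : (∃ N : ℕ, ∀ y, (h ⁻¹' {y}).encard ≤ N) →
      TopTransitive f ∧ IsCoveringMap h ∧ ∀ y, (h ⁻¹' {y}).Finite := by
    rintro ⟨N, hN⟩
    obtain ⟨k1, k2, -, k4⟩ := man_open f Es Eu hA g hg hgT h hc ho hh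
      (Set.finite_of_encard_le_coe (hN y₀)) hy₀
    exact ⟨k1, k2, k4⟩
  tfae_have 1 → 7 := fun ⟨h1, h2⟩ => kb (((key h1).out 0 4).1 h2)
  tfae_have 2 → 7 := fun ⟨h1, h2⟩ => kb (((key h1).out 1 4).1 h2)
  tfae_have 3 → 7 := fun ⟨h1, h2⟩ => kb (((key h1).out 2 4).1 h2)
  tfae_have 4 → 5 := one_of_sep f.toHomeomorph h
  tfae_have 5 → 7 := fun h4 => kb (man_bdd f Es Eu hA g hg h hc hh h4)
  tfae_have 6 → 7 := fun h6 => kb (bounded_of_cover h6)
  tfae_have 7 → 6 := fun h7 => h7.2.1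
  tfae_have 7 → 1 := fun h7 => ⟨h7.1, ((key h7.1).out 0 4).2 (bounded_of_cover h7.2.1)⟩
  tfae_have 7 → 2 := fun h7 => ⟨h7.1, ((key h7.1).out 1 4).2 (bounded_of_cover h7.2.1)⟩
  tfae_have 7 → 3 := fun h7 => ⟨h7.1, fun y => (h7.2.2 y).countable⟩
  tfae_have 7 → 4 := fun h7 => ((key h7.1).out 3 4).2 (bounded_of_cover h7.2.1)
  tfae_finish

end manifold

end Pool.Agent.Y331.EP
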