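import Pool.Agent.Y331.EP.Fin

/-!
# Homoclinic identifications without transitivity
-/

set_option autoImplicit false
set_option linter.unusedSectionVars false

open Filter Topology Set

namespace Pool.Agent.Y331.EP

variable {X Y : Type*} [MetricSpace X] [MetricSpace Y]

/-- The constants, without transitivity. -/
structure Cw (f : X ≃ₜ X) (g : Y ≃ₜ Y) (h : X → Y) (ef eg ε δ ν : ℝ) : Prop where
  exf : Ex f ef
  exg : Ex g eg
  hh : ∀ x, h (f x) = g (h x)
  ε_pos : 0 < ε
  ε_ef : 4 * ε ≤ ef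
  δ_pos : 0 < δ
  md : ∀ x x' : X, dist x x' ≤ ε → dist (h x) (h x') ≤ ν
  ν_eg : 2 * ν ≤ eg
  sh : ∀ x : ℤ → X, (∀ n, dist (f (x n)) (x (n + 1)) ≤ δ) →
    ∃ y, Orb f y ∧ ∀ n, dist (x n) (y n) ≤ ε

theorem exists_cw [CompactSpace X] {f : X ≃ₜ X} {g : Y ≃ₜ Y} {h : X → Y} {ef eg : ℝ}
    (hE : Ex f ef) (hS : Shad f) (hG : Ex g eg) (hc : Continuous h)
    (hh : ∀ x, h (f x) = g (h x)) : ∃ ε δ : ℝ, Cw f g h ef eg ε δ (eg / 4) := by
  have huc : UniformContinuous h := CompactSpace.uniformContinuous_of_continuous hc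
  have hge := hG.pos
  have hfe := hE.pos
  obtain ⟨η, hη, h1⟩ := Metric.uniformContinuous_iff.1 huc (eg / 4) (by linarith)
  have hm : 0 < min (ef / 4) (η / 2) := lt_min (by linarith) (by linarith)
  have hm1 : min (ef / 4) (η / 2) ≤ ef / 4 := min_le_left _ _
  have hm2 : min (ef / 4) (η / 2) ≤ η / 2 := min_le_right _ _
  obtain ⟨δ, hδ, hsh⟩ := hS _ hm
  exact ⟨_, δ, {
    exf := hE
    exg := hG
    hh := hh
    ε_pos := hm
    ε_ef := by linarith
    δ_pos := hδ
    md := fun x x' hx => (h1 (show dist x x' < η by linarith)).le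
    ν_eg := by linarith
    sh := hsh }⟩

theorem im_eq' {f : X ≃ₜ X} {g : Y ≃ₜ Y} {h : X → Y} {ef eg ε δ ν : ℝ}
    (C : Cw f g h ef eg ε δ ν) {P P' y y' : ℤ → X} (hP : ∀ n, h (P n) = h (P' n))
    (hy : Orb f y) (hy' : Orb f y') (h1 : ∀ n, dist (P n) (y n) ≤ ε)
    (h2 : ∀ n, dist (P' n) (y' n) ≤ ε) : h (y 0) = h (y' 0) := by
  refine C.exg.exp (fun n => h (y n)) (fun n => h (y' n)) (fun n => ?_) (fun n => ?_) fun n => ?_
  · show h (y (n + 1)) = g (h (y n))
    rw [hy, C.hh]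
  · show h (y' (n + 1)) = g (h (y' n))
    rw [hy', C.hh]
  · have h3 := C.md _ _ (h1 n)
    have h4 := C.md _ _ (h2 n)
    rw [← hP] at h4
    have h5 := dist_triangle_left (h (y n)) (h (y' n)) (h (P n))
    have h6 := C.ν_eg
    show dist (h (y n)) (h (y' n)) ≤ eg
    linarith

theorem hm_of_dia' [CompactSpace X] {f : X ≃ₜ X} {g : Y ≃ₜ Y} {h : X → Y}
    {ef eg ε δ ν : ℝ} (C : Cw f g h ef eg ε δ ν)
    {x0 y0 : X} {L c : ℕ} (hD : Dia f h δ ef x0 y0 L c) :
    ∃ x y, x ≠ y ∧ h x = h y ∧ Hm f x y := by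
  have hcL := hD.cL
  have hc0 := hD.hc
  have hee : 4 * ε ≤ ef := C.ε_ef
  have hε := C.ε_pos
  set P : ℤ → X := fun n => (f ^ n) x0 with hP
  set P' : ℤ → X := fun n => if 0 < n ∧ n < L then f^[n.toNat] y0 else (f ^ n) x0 with hP'
  have hPch : ∀ n, dist (f (P' n)) (P' (n + 1)) ≤ δ := by
    intro n
    simp only [hP']
    by_cases h1 : 0 < n ∧ n < L
    · rw [if_pos h1]
      by_cases h2 : n + 1 < L
      · rw [if_pos ⟨by omega, h2⟩]
        have h3 : (n + 1).toNat = n.toNat + 1 := by omega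
        rw [h3, Function.iterate_succ_apply', dist_self]
        exact C.δ_pos.le
      · rw [if_neg (by omega)]
        have h3 : n + 1 = (L : ℤ) := by omega
        have h4 : n.toNat + 1 = L := by omega
        rw [h3, zp_nat, ← Function.iterate_succ_apply' (⇑f) n.toNat y0, Nat.succ_eq_add_one, h4,
          dist_comm]
        exact hD.dL
    · rw [if_neg h1]
      by_cases h2 : 0 < n + 1 ∧ n + 1 < L
      · rw [if_pos h2]
        have h3 : n = 0 := by omega
        subst h3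
        simpa using hD.d0
      · rw [if_neg h2, zp_succ, dist_self]
        exact C.δ_pos.le
  obtain ⟨y, hy, hyd⟩ := C.sh P' hPch
  have himg : h (P 0) = h (y 0) := by
    refine im_eq' C (P := P) (P' := P') (fun n => ?_) (orb_zp f x0) hy
      (fun n => by rw [hP, dist_self]; exact C.ε_pos.le) hyd
    simp only [hP, hP']
    by_cases h1 : 0 < n ∧ n < L
    · rw [if_pos h1]
      obtain ⟨k, rfl⟩ : ∃ k : ℕ, n = k := ⟨n.toNat, by omega⟩
      rw [zp_nat, semi_iter C.hh, Int.toNat_natCast, semi_iter C.hh, hD.hxy]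
    · rw [if_neg h1]
  have hP0 : P 0 = x0 := by simp [hP]
  rw [hP0] at himg
  have hout : ∀ n : ℤ, ¬ (0 < n ∧ n < L) → dist ((f ^ n) x0) (y n) ≤ ε := by
    intro n hn
    have := hyd n
    simp only [hP'] at this
    rwa [if_neg hn] at this
  refine ⟨x0, y 0, ?_, himg, ?_, ?_⟩
  · intro he
    have h1 := hyd (c : ℤ)
    simp only [hP'] at h1
    rw [if_pos (by omega), Int.toNat_natCast] at h1
    have h2 := orb_nat hy 0 c
    rw [zero_add] at h2
    rw [h2, ← he] at h1
    have h3 := hD.sep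
    rw [dist_comm] at h1
    linarith
  · refine tend_of_close C.exf (L := L) fun n hn => ?_
    have h1 := hout n (by omega)
    have h2 := orb_nat hy 0 n
    rw [zero_add] at h2
    rw [zp_nat, h2] at h1
    linarith
  · refine tend_of_close C.exf.symm (L := 0) fun n _ => ?_
    have h1 := hout (-(n : ℤ)) (by omega)
    rw [orb_eq f hy, zp_neg, zp_neg] at h1
    linarith

/-- **Without identifications of doubly asymptotic points the fibres are bounded.** -/
theorem bdd_of_hm [CompactSpace X] {f : X ≃ₜ X} {g : Y ≃ₜ Y} {h : X → Y} {ef eg : ℝ}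
    (hE : Ex f ef) (hS : Shad f) (hG : Ex g eg) (hc : Continuous h)
    (hh : ∀ x, h (f x) = g (h x)) (h4 : ∀ x y, h x = h y → Hm f x y → x = y) :
    ∃ N : ℕ, ∀ y, (h ⁻¹' {y}).encard ≤ N := by
  obtain ⟨ε, δ, C⟩ := exists_cw hE hS hG hc hh
  rcases dia_or_fin hE hh C.δ_pos with ⟨x0, y0, L, c, hD⟩ | h5
  · obtain ⟨x, y, hne, hxy, hm⟩ := hm_of_dia' C hD
    exact absurd (h4 x y hxy hm) hne
  · exact h5

/-- the homeomorphism induced on the image -/
def rg {f : X ≃ₜ X} {g : Y ≃ₜ Y} {h : X → Y} (hh : ∀ x, h (f x) = g (h x)) :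
    range h ≃ₜ range h :=
  g.subtype fun y => by
    constructor
    · rintro ⟨x, rfl⟩
      exact ⟨f x, hh x⟩
    · rintro ⟨x, hx⟩
      refine ⟨f.symm x, g.injective ?_⟩
      rw [← hh, f.apply_symm_apply, hx]

theorem rg_coe {f : X ≃ₜ X} {g : Y ≃ₜ Y} {h : X → Y} (hh : ∀ x, h (f x) = g (h x))
    (y : range h) : ((rg hh y : range h) : Y) = g y := rfl

theorem rg_ex {f : X ≃ₜ X} {g : Y ≃ₜ Y} {h : X → Y} (hh : ∀ x, h (f x) = g (h x)) {e : ℝ}
    (hG : Ex g e) : Ex (rg hh) e where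
  pos := hG.pos
  exp := fun x y hx hy hd => by
    refine Subtype.ext (hG.exp (fun n => (x n : Y)) (fun n => (y n : Y)) (fun n => ?_)
      (fun n => ?_) hd)
    · show ((x (n + 1) : range h) : Y) = g (x n)
      rw [hx, rg_coe]
    · show ((y (n + 1) : range h) : Y) = g (y n)
      rw [hy, rg_coe]

theorem rg_ent {f : X ≃ₜ X} {g : Y ≃ₜ Y} {h : X → Y} (hh : ∀ x, h (f x) = g (h x)) :
    Dynamics.coverEntropy (rg hh) univ = Dynamics.coverEntropy g (range h) := by
  have hm : MapsTo g (range h) (range h) := by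
    rintro _ ⟨x, rfl⟩
    exact ⟨f x, hh x⟩
  rw [← Dynamics.coverEntropy_restrict hm]
  rfl

/-- the complete theorem without surjectivity -/
theorem abs_range [CompactSpace X] [ConnectedSpace X] [CompactSpace Y] {f : X ≃ₜ X}
    {g : Y ≃ₜ Y} {h : X → Y} {ef eg : ℝ} (hE : Ex f ef) (hS : Shad f) (hT : TT f)
    (hG : Ex g eg) (hc : Continuous h) (hh : ∀ x, h (f x) = g (h x)) :
    List.TFAE [Dynamics.coverEntropy f univ ≤ Dynamics.coverEntropy g (range h),
      ∀ y, (h ⁻¹' {y}).Countable,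
      ∀ x y, h x = h y → Hm f x y → x = y,
      ∃ N : ℕ, ∀ y, (h ⁻¹' {y}).encard ≤ N] := by
  have hcr : IsCompact (range h) := isCompact_range hc
  have hcs : CompactSpace (range h) := isCompact_iff_compactSpace.1 hcr
  set h' : X → range h := rangeFactorization h with hh'
  have hc' : Continuous h' := hc.subtype_mk _
  have hs' : Function.Surjective h' := rangeFactorization_surjective
  have hsc : ∀ x, h' (f x) = rg hh (h' x) := fun x => Subtype.ext (hh x)
  have key := abs_full hE hS hT (rg_ex hh hG) hc' hs' hsc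
  rw [rg_ent hh] at key
  have e0 : ∀ y : range h, h' ⁻¹' {y} = h ⁻¹' {(y : Y)} := fun y => by
    ext x
    exact Subtype.ext_iff
  have e1 : ∀ y : Y, y ∉ range h → h ⁻¹' {y} = ∅ := fun y hy => by
    ext x
    simp only [mem_preimage, mem_singleton_iff, mem_empty_iff_false, iff_false]
    intro hx
    exact hy ⟨x, hx⟩
  have k1 : (∀ y : range h, (h' ⁻¹' {y}).Countable) ↔ ∀ y, (h ⁻¹' {y}).Countable := by
    constructor
    · intro h1 y
      by_cases hy : y ∈ range h
      · have := h1 ⟨y, hy⟩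
        rwa [e0] at this
      · rw [e1 y hy]
        exact countable_empty
    · intro h1 y
      rw [e0]
      exact h1 _
  have k2 : (∀ x y, h' x = h' y → Hm f x y → x = y) ↔
      ∀ x y, h x = h y → Hm f x y → x = y := by
    constructor
    · intro h1 x y hxy
      exact h1 x y (Subtype.ext hxy)
    · intro h1 x y hxy
      exact h1 x y (congrArg Subtype.val hxy)
  have k3 : (∃ N : ℕ, ∀ y : range h, (h' ⁻¹' {y}).encard ≤ N) ↔
      ∃ N : ℕ, ∀ y, (h ⁻¹' {y}).encard ≤ N := by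
    constructor
    · rintro ⟨N, h1⟩
      refine ⟨N, fun y => ?_⟩
      by_cases hy : y ∈ range h
      · have := h1 ⟨y, hy⟩
        rwa [e0] at this
      · rw [e1 y hy, encard_empty]
        exact zero_le
    · rintro ⟨N, h1⟩
      refine ⟨N, fun y => ?_⟩
      rw [e0]
      exact h1 _
  rw [← k1, ← k2, ← k3]
  tfae_have 1 ↔ 4 := key.out 0 4
  tfae_have 2 ↔ 4 := key.out 2 4
  tfae_have 3 ↔ 4 := key.out 3 4
  tfae_finish

end Pool.Agent.Y331.EP
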